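import Pool.Agent.Q18.PR.Inf

/-!
# Characters over the characters of a central subgroup
-/

open scoped BigOperators Classical

set_option linter.unusedSectionVars false

noncomputable section

namespace Pool.Agent.Q18.PR

open Pool.Agent.Q18.K
open Pool.Agent.Helper884.IC (IsIrrChar irr_finite)
open Pool.Agent.Y63.NV (IsClassFun Knum centralValue redC)
open Pool.Agent.Y63.KR

section

variable {Γ : Type} [Group Γ] [Finite Γ] {p : ℕ} {Z K H : Subgroup Γ}

/-- the characters over a linear character of a central subgroup -/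
def LO (ν : Z →* ℂˣ) {H : Subgroup Γ} (χ : H → ℂ) : Prop :=
  ∀ (k : Z) (x y : H), (y : Γ) = k * x → χ y = (ν k : ℂ) * χ x

theorem irr_one {χ : H → ℂ} (hχ : IsIrrChar χ) : χ 1 ≠ 0 := by
  have : Fintype H := Fintype.ofFinite H
  exact Pool.Agent.Y63.AWC.one_ne hχ

/-- Schur's lemma -/
theorem exists_lo (hZc : Z ≤ Subgroup.center Γ) (hZH : Z ≤ H) {χ : H → ℂ} (hχ : IsIrrChar χ) :
    ∃ ν : Z →* ℂˣ, LO ν χ := by
  have : Fintype H := Fintype.ofFinite H
  obtain ⟨V, i1, i2, i3, ρ, hr, rfl⟩ := hχ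
  have hsc : ∀ k : Z, ∃ c : ℂ, ρ ⟨k, hZH k.2⟩ = c • (1 : Module.End ℂ V) := by
    intro k
    have hcomm : ∀ (h : H) (v : V), ρ ⟨k, hZH k.2⟩ (ρ h v) = ρ h (ρ ⟨k, hZH k.2⟩ v) := by
      intro h v
      rw [← Module.End.mul_apply, ← Module.End.mul_apply, ← map_mul, ← map_mul]
      congr 2
      exact Subtype.ext (Subgroup.mem_center_iff.1 (hZc k.2) h).symm
    let T : Representation.IntertwiningMap ρ ρ :=
      (ρ ⟨k, hZH k.2⟩).intertwiningMap_of_isIntertwiningMap ρ ρ hcomm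
    obtain ⟨c, hc⟩ :=
      (Representation.IsIrreducible.algebraMap_intertwiningMap_bijective_of_isAlgClosed
      (ρ := ρ)).2 T
    refine ⟨c, ?_⟩
    ext v
    have := congrArg (fun S : Representation.IntertwiningMap ρ ρ => S v) hc
    have h2 : T v = ρ ⟨k, hZH k.2⟩ v := rfl
    rw [← h2]
    exact this.symm
  choose c hc using hsc
  have hnt := Pool.Agent.Y63.AWC.irr_nontrivial ρ hr
  have hinj : ∀ a b : ℂ, a • (1 : Module.End ℂ V) = b • 1 → a = b := by
    intro a b h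
    obtain ⟨v, hv⟩ := exists_ne (0 : V)
    have h1 := LinearMap.congr_fun h v
    rw [LinearMap.smul_apply, LinearMap.smul_apply, Module.End.one_apply] at h1
    exact smul_left_injective ℂ hv h1
  have h1 : c 1 = 1 := hinj _ _ (by
    rw [← hc, one_smul]
    exact map_one ρ)
  have h2 : ∀ k l, c (k * l) = c k * c l := by
    intro k l
    refine hinj _ _ ?_
    rw [← hc]
    have h3 : (⟨((k * l : Z) : Γ), hZH (k * l).2⟩ : H) = ⟨k, hZH k.2⟩ * ⟨l, hZH l.2⟩ := rfl
    rw [h3, map_mul, hc, hc, smul_mul_smul_comm, one_mul]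
  let f : Z →* ℂ := { toFun := c, map_one' := h1, map_mul' := h2 }
  refine ⟨f.toHomUnits, fun k x y hxy => ?_⟩
  have h3 : y = ⟨k, hZH k.2⟩ * x := Subtype.ext hxy
  rw [MonoidHom.coe_toHomUnits]
  change LinearMap.trace ℂ V (ρ y) = c k * LinearMap.trace ℂ V (ρ x)
  rw [h3, map_mul, hc, smul_mul_assoc, one_mul, map_smul, smul_eq_mul]

theorem lo_unique (hZH : Z ≤ H) {χ : H → ℂ} (hχ : IsIrrChar χ) {ν ν' : Z →* ℂˣ} (h : LO ν χ)
    (h' : LO ν' χ) : ν = ν' := by
  ext k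
  have h1 := h k 1 ⟨k, hZH k.2⟩ (by rw [Subgroup.coe_one, mul_one])
  have h2 := h' k 1 ⟨k, hZH k.2⟩ (by rw [Subgroup.coe_one, mul_one])
  rw [h1] at h2
  exact mul_right_cancel₀ (irr_one hχ) h2

end

/-! ### characters of a finite group with values in the complex numbers -/

section

variable {A : Type} [Group A] [Finite A]

theorem exists_gen_range (ν : A →* ℂˣ) : ∃ z₀ : A, ∀ z, ∃ i : ℤ, ν z = ν z₀ ^ i := by
  have hfin : Finite ν.range := by
    have : Finite (Set.range ν) := Set.finite_range ν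
    exact this
  have hcyc : IsCyclic ν.range := inferInstance
  obtain ⟨⟨_, z₀, rfl⟩, hg⟩ := hcyc.exists_generator
  refine ⟨z₀, fun z => ?_⟩
  obtain ⟨i, hi⟩ := hg ⟨ν z, z, rfl⟩
  exact ⟨i, (congrArg Subtype.val hi).symm⟩

theorem zpA (ν : A →* ℂˣ) (i : ℤ) (z : A) : (ν ^ i) z = ν z ^ i := MonoidHom.zpow_apply ν i z

theorem zp_nat {U : Type} [CommGroup U] {w u : U} {m : ℕ} (hm : 0 < m) (hw : w ^ m = 1)
    (h : u ∈ Subgroup.zpowers w) : ∃ i : ℕ, w ^ i = u :=
  (isOfFinOrder_iff_pow_eq_one.2 ⟨m, hm, hw⟩).mem_powers_iff_mem_zpowers.2 h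

theorem cop_of {U : Type} [CommGroup U] {w u : U} {p c i j : ℕ} (hpp : p.Prime)
    (hc : w ^ p ^ c = 1) (hi : w ^ i = u) (hj : u ^ j = w) (hw1 : w ≠ 1) : ¬ p ∣ i := by
  intro hpi
  have h1 : w ^ (i * j) = w ^ 1 := by
    rw [pow_one, pow_mul, hi, hj]
  rw [pow_eq_pow_iff_modEq] at h1
  have h2 : orderOf w ∣ p ^ c := orderOf_dvd_of_pow_eq_one hc
  obtain ⟨d, _, hd⟩ := (Nat.dvd_prime_pow hpp).1 h2
  have h3 : p ∣ orderOf w := by
    rw [hd]
    refine dvd_pow_self p ?_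
    rintro rfl
    rw [pow_zero, orderOf_eq_one_iff] at hd
    exact hw1 hd
  have h4 := h1.of_dvd h3
  have h5 : i * j ≡ 0 [MOD p] := (Nat.modEq_zero_iff_dvd).2 (dvd_mul_of_dvd_left hpi j)
  have h6 := h5.symm.trans h4
  have h7 := (Nat.modEq_iff_dvd' (Nat.zero_le 1)).1 h6
  exact hpp.one_lt.ne' (Nat.dvd_one.1 h7)

theorem dual_cyc {ν ν' : A →* ℂˣ} (h : ν.ker ≤ ν'.ker) : ν' ∈ Subgroup.zpowers ν := by
  obtain ⟨z₀, h0⟩ := exists_gen_range ν
  have hfo : IsOfFinOrder (ν z₀) := by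
    rw [isOfFinOrder_iff_pow_eq_one]
    exact ⟨Nat.card A, Nat.card_pos, by rw [← map_pow, pow_card_eq_one', map_one]⟩
  have hn : 0 < orderOf (ν z₀) := hfo.orderOf_pos
  have hp : IsPrimitiveRoot ((ν z₀ : ℂˣ) : ℂ) (orderOf (ν z₀)) :=
    IsPrimitiveRoot.coe_units_iff.2 (IsPrimitiveRoot.orderOf _)
  have h1 : z₀ ^ orderOf (ν z₀) ∈ ν'.ker := h (by
    rw [MonoidHom.mem_ker, map_pow, pow_orderOf_eq_one])
  rw [MonoidHom.mem_ker, map_pow] at h1
  have : NeZero (orderOf (ν z₀)) := ⟨hn.ne'⟩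
  obtain ⟨j, _, hj⟩ := hp.eq_pow_of_pow_eq_one (ξ := ((ν' z₀ : ℂˣ) : ℂ)) (by
    rw [← Units.val_pow_eq_pow_val, h1, Units.val_one])
  have hj' : ν z₀ ^ j = ν' z₀ := Units.ext (by rw [Units.val_pow_eq_pow_val, hj])
  refine ⟨(j : ℤ), ?_⟩
  refine MonoidHom.ext fun z => ?_
  obtain ⟨i, hi⟩ := h0 z
  have h2 : z * (z₀ ^ i)⁻¹ ∈ ν'.ker := h (by
    rw [MonoidHom.mem_ker, map_mul, map_inv, map_zpow, hi, mul_inv_cancel])
  rw [MonoidHom.mem_ker, map_mul, map_inv, map_zpow, mul_inv_eq_one] at h2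
  refine (zpA ν (j : ℤ) z).trans ?_
  rw [hi, h2, ← hj', ← zpow_natCast, ← zpow_mul, ← zpow_mul, mul_comm]

theorem card_zp (ν : A →* ℂˣ) : Nat.card ν.ker * Nat.card (Subgroup.zpowers ν) = Nat.card A := by
  obtain ⟨z₀, h0⟩ := exists_gen_range ν
  have h1 := Subgroup.card_mul_index ν.ker
  rw [Subgroup.index_ker] at h1
  rw [← h1, Nat.card_zpowers]
  congr 1
  have h2 : ν.range = Subgroup.zpowers (ν z₀) := by
    apply le_antisymm
    · rintro _ ⟨z, rfl⟩
      obtain ⟨i, hi⟩ := h0 z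
      exact ⟨i, hi.symm⟩
    · rw [Subgroup.zpowers_le]
      exact ⟨z₀, rfl⟩
  rw [h2, Nat.card_zpowers, orderOf_eq_orderOf_iff]
  intro n
  constructor
  · intro h
    rw [← MonoidHom.pow_apply, h, MonoidHom.one_apply]
  · intro h
    refine MonoidHom.ext fun z => ?_
    obtain ⟨i, hi⟩ := h0 z
    rw [MonoidHom.pow_apply, hi, MonoidHom.one_apply, ← zpow_natCast, ← zpow_mul, mul_comm,
      zpow_mul, zpow_natCast, h, one_zpow]

theorem fin_order (ν : A →* ℂˣ) : ν ^ Nat.card A = 1 := by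
  refine MonoidHom.ext fun z => ?_
  rw [MonoidHom.pow_apply, ← map_pow, pow_card_eq_one', map_one, MonoidHom.one_apply]

theorem fin_zp (ν : A →* ℂˣ) : Finite (Subgroup.zpowers ν) := by
  have h1 : 0 < Nat.card (Subgroup.zpowers ν) := by
    rw [Nat.card_zpowers]
    exact orderOf_pos_iff.2 (isOfFinOrder_iff_pow_eq_one.2 ⟨_, Nat.card_pos, fin_order ν⟩)
  exact Nat.finite_of_card_ne_zero h1.ne'

/-- a function whose sum over every cyclic subgroup vanishes and which depends only on the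
subgroup generated is zero -/
theorem cyc_zero1 {U : Type} [Group U] (D : U → ℤ)
    (h2 : ∀ u w : U, Subgroup.zpowers u = Subgroup.zpowers w → D u = D w) (u₀ : U)
    (hf : IsOfFinOrder u₀)
    (h1 : ∀ u ∈ Subgroup.zpowers u₀, ∀ [Fintype (Subgroup.zpowers u)],
      ∑ v : Subgroup.zpowers u, D v = 0) : D u₀ = 0 := by
  have key : ∀ (n : ℕ) (u : U), u ∈ Subgroup.zpowers u₀ → orderOf u = n → D u = 0 := by
    intro n
    induction n using Nat.strong_induction_on with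
    | _ n ih =>
      intro u hu0 hu
      have hfu : IsOfFinOrder u := by
        obtain ⟨i, rfl⟩ := hu0
        exact hf.zpow
      have hfz : Finite (Subgroup.zpowers u) := by
        apply Nat.finite_of_card_ne_zero
        rw [Nat.card_zpowers]
        exact hfu.orderOf_pos.ne'
      have : Fintype (Subgroup.zpowers u) := Fintype.ofFinite _
      have h3 := h1 u hu0
      have h4 : ∀ v : Subgroup.zpowers u, D v = if orderOf (v : U) = n then D u else 0 := by
        intro v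
        have hle : Subgroup.zpowers (v : U) ≤ Subgroup.zpowers u := by
          rw [Subgroup.zpowers_le]
          exact v.2
        by_cases hv : orderOf (v : U) = n
        · rw [if_pos hv]
          refine h2 _ _ (Subgroup.eq_of_le_of_card_ge hle ?_)
          rw [Nat.card_zpowers, Nat.card_zpowers, hu, hv]
        · rw [if_neg hv]
          refine ih _ ?_ _ ?_ rfl
          · have h5 : orderOf (v : U) ≤ n := by
              rw [← hu, ← Nat.card_zpowers, ← Nat.card_zpowers]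
              exact Nat.card_le_card_of_injective (Subgroup.inclusion hle)
                (Subgroup.inclusion_injective hle)
            omega
          · have h6 : Subgroup.zpowers u ≤ Subgroup.zpowers u₀ := by
              rw [Subgroup.zpowers_le]
              exact hu0
            exact h6 v.2
      rw [Finset.sum_congr rfl fun v _ => h4 v, ← Finset.sum_filter, Finset.sum_const,
        nsmul_eq_mul] at h3
      rcases mul_eq_zero.1 h3 with h5 | h5
      · exfalso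
        have h6 : (Finset.univ.filter fun v : Subgroup.zpowers u => orderOf (v : U) = n).card = 0 :=
          by exact_mod_cast h5
        rw [Finset.card_eq_zero] at h6
        have h7 : (⟨u, Subgroup.mem_zpowers u⟩ : Subgroup.zpowers u) ∈
            (Finset.univ.filter fun v : Subgroup.zpowers u => orderOf (v : U) = n) := by
          rw [Finset.mem_filter]
          exact ⟨Finset.mem_univ _, hu⟩
        rw [h6] at h7
        exact absurd h7 (Finset.notMem_empty _)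
      · exact h5
  exact key _ u₀ (Subgroup.mem_zpowers u₀) rfl

end

section

variable {Γ : Type} [Group Γ] [Finite Γ] {p : ℕ} {Z K H : Subgroup Γ}

/-- the kernel as a subgroup of `Γ` -/
def kr (ν : Z →* ℂˣ) : Subgroup Γ := ν.ker.map Z.subtype

theorem kr_le (ν : Z →* ℂˣ) : kr ν ≤ Z := by
  rintro _ ⟨z, _, rfl⟩
  exact z.2

theorem kr_card (ν : Z →* ℂˣ) : Nat.card (kr ν) = Nat.card ν.ker :=
  Nat.card_congr (ν.ker.equivMapOfInjective Z.subtype Z.subtype_injective).toEquiv.symm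

theorem ki_iff (hZc : Z ≤ Subgroup.center Γ) (hZH : Z ≤ H) {χ : H → ℂ} (hχ : IsIrrChar χ)
    (ν : Z →* ℂˣ) : KI (kr ν) χ ↔ ∃ ν' : Subgroup.zpowers ν, LO (ν' : Z →* ℂˣ) χ := by
  constructor
  · intro h
    obtain ⟨ν', h'⟩ := exists_lo hZc hZH hχ
    refine ⟨⟨ν', dual_cyc ?_⟩, h'⟩
    intro k hk
    rw [MonoidHom.mem_ker]
    have h1 := h k ⟨k, hk, rfl⟩ 1 ⟨k, hZH k.2⟩ (by rw [Subgroup.coe_one, mul_one])
    have h2 := h' k 1 ⟨k, hZH k.2⟩ (by rw [Subgroup.coe_one, mul_one])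
    rw [h1] at h2
    have h3 := irr_one hχ
    apply Units.ext
    rw [Units.val_one]
    have h4 : (1 : ℂ) * χ 1 = (ν' k : ℂ) * χ 1 := by rw [one_mul]; exact h2
    exact (mul_right_cancel₀ h3 h4).symm
  · rintro ⟨⟨ν', i, rfl⟩, h⟩
    rintro _ ⟨k, hk, rfl⟩ x y hxy
    have h1 := h k x y hxy
    have h2 : (ν ^ i) k = 1 := by
      have h3 : ν k = 1 := hk
      rw [zpA, h3, one_zpow]
    change χ y = ((ν ^ i) k : ℂ) * χ x at h1
    rw [h1, h2, Units.val_one, one_mul]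

/-- automorphisms which relate two generators -/
theorem exists_gal [hp : Fact p.Prime] (hZ : IsPGroup p Z) {w u : Z →* ℂˣ}
    (h : Subgroup.zpowers u = Subgroup.zpowers w) :
    ∃ t : ℂ ≃+* ℂ, (∀ ζ : ℂ, ζ ^ Nat.card Γ = 1 → (∃ k : ℕ, ¬ p ∣ k ∧ ζ ^ k = 1) → t ζ = ζ) ∧
      ∀ k : Z, t (w k : ℂ) = u k := by
  have hpp : p.Prime := hp.out
  have hn0 : 0 < Nat.card Γ := Nat.card_pos
  set a := (Nat.card Γ).factorization p with ha
  set n' := Nat.card Γ / p ^ a with hn'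
  have hnn : p ^ a * n' = Nat.card Γ := Nat.ordProj_mul_ordCompl_eq_self _ p
  have hn'p : ¬ p ∣ n' := Nat.not_dvd_ordCompl hpp hn0.ne'
  have hn'0 : 0 < n' := Nat.pos_of_ne_zero fun h => hn'p (h ▸ dvd_zero p)
  obtain ⟨c, hc⟩ := IsPGroup.iff_card.1 hZ
  have hca : p ^ c ∣ p ^ a := by
    have h1 : p ^ c ∣ Nat.card Γ := hc ▸ Subgroup.card_subgroup_dvd_card Z
    exact pow_dvd_pow p ((hpp.pow_dvd_iff_le_factorization hn0.ne').1 h1)
  obtain ⟨i, hi⟩ : ∃ i : ℕ, w ^ i = u := zp_nat Nat.card_pos (fin_order w) (by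
    rw [← h]
    exact Subgroup.mem_zpowers u)
  obtain ⟨j, hj⟩ : ∃ i : ℕ, u ^ i = w := zp_nat Nat.card_pos (fin_order u) (by
    rw [h]
    exact Subgroup.mem_zpowers w)
  by_cases hw1 : w = 1
  · refine ⟨RingEquiv.refl ℂ, fun _ _ _ => rfl, fun k => ?_⟩
    have hu1 : u = 1 := by
      rw [← hi, hw1]
      exact one_pow (M := Z →* ℂˣ) i
    rw [hw1, hu1]
    rfl
  · -- the exponent is prime to `p`
    have hpc : w ^ p ^ c = 1 := hc ▸ fin_order w
    have hpi : ¬ p ∣ i := cop_of (U := Z →* ℂˣ) (w := w) (u := u) (c := c) (i := i) (j := j)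
      hpp hpc hi hj hw1
    have hcop : (p ^ a).Coprime n' := (Nat.Prime.coprime_pow_of_not_dvd (m := a) hpp hn'p).symm
    obtain ⟨e, he1, he2⟩ := Nat.chineseRemainder hcop i 1
    have hec : e.Coprime (Nat.card Γ) := by
      rw [← hnn]
      refine Nat.Coprime.mul_right ?_ ?_
      · rw [Nat.coprime_iff_gcd_eq_one, he1.gcd_eq]
        exact Nat.Prime.coprime_pow_of_not_dvd (m := a) hpp hpi
      · rw [Nat.coprime_iff_gcd_eq_one, he2.gcd_eq]
        exact Nat.gcd_one_left _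
    obtain ⟨t, ht⟩ := exists_cyc_aut hn0 (ZMod.unitOfCoprime e hec)
    have : NeZero (Nat.card Γ) := ⟨hn0.ne'⟩
    have hv : ((ZMod.unitOfCoprime e hec : (ZMod (Nat.card Γ))ˣ) : ZMod (Nat.card Γ)).val ≡ e
        [MOD Nat.card Γ] := by
      rw [ZMod.coe_unitOfCoprime, ZMod.val_natCast]
      exact Nat.mod_modEq _ _
    have ht' : ∀ ζ : ℂ, ζ ^ Nat.card Γ = 1 → t ζ = ζ ^ e := fun ζ hζ => by
      rw [ht ζ hζ]
      exact pow_of_modEq hv hζ
    refine ⟨t, ?_, ?_⟩
    · rintro ζ hζ ⟨k, hk, hζk⟩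
      rw [ht' ζ hζ]
      have h1 : ζ ^ (n' * p ^ 0) = 1 := by
        refine pow_key hpp (a := a) hk ?_ ?_
        · rw [Nat.mul_comm, hnn, hζ]
        · rw [pow_zero, mul_one, hζk]
      rw [pow_zero, mul_one] at h1
      have := pow_of_modEq he2 h1
      rw [this, pow_one]
    · intro k
      have h1 : ((w k : ℂˣ) : ℂ) ^ (p ^ c) = 1 := by
        rw [← Units.val_pow_eq_pow_val, ← MonoidHom.pow_apply, ← hc, fin_order,
          MonoidHom.one_apply, Units.val_one]
      have h2 : ((w k : ℂˣ) : ℂ) ^ (p ^ a) = 1 := by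
        obtain ⟨d, hd⟩ := hca
        rw [hd, pow_mul, h1, one_pow]
      have h3 : ((w k : ℂˣ) : ℂ) ^ Nat.card Γ = 1 := by
        rw [← hnn, pow_mul, h2, one_pow]
      rw [ht' _ h3, pow_of_modEq he1 h2, ← Units.val_pow_eq_pow_val, ← MonoidHom.pow_apply]
      congr 2

end

end Pool.Agent.Q18.PR
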