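import Pool.Agent.Q18.K.Chain
import Pool.Agent.Q18.K.Kr
import Pool.Agent.Q177.PR.Eig

/-!
# Translations by a central `p`-subgroup
-/

open scoped BigOperators Classical

set_option linter.unusedSectionVars false

noncomputable section

namespace Pool.Agent.Q18.PR

open Pool.Agent.Q18.K
open Pool.Agent.Y63.NV (Kop Kfun SA cut VS gk push IsClassFun)
open Pool.Agent.Y63.KR

section

variable {Γ : Type} [Group Γ] [Finite Γ] {p : ℕ} {Z K H : Subgroup Γ}

/-- the translations by central `p`-elements act freely on classes -/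
theorem free_of [Fact p.Prime] (hZc : Z ≤ Subgroup.center Γ) (hZ : IsPGroup p Z) {x : Γ}
    (hx : ∃ n : ℕ, ¬ p ∣ n ∧ x ^ n ∈ Z) {h k : Γ} (hk : k ∈ Z) (he : h * x * h⁻¹ = x * k) :
    k = 1 := by
  obtain ⟨n, hn, hxn⟩ := hx
  have hkc : ∀ g, g * k = k * g := fun g => Subgroup.mem_center_iff.1 (hZc hk) g
  have hxc : ∀ g, g * x ^ n = x ^ n * g := fun g => Subgroup.mem_center_iff.1 (hZc hxn) g
  have h1 : (h * x * h⁻¹) ^ n = x ^ n := by
    rw [conj_pow, hxc h, mul_inv_cancel_right]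
  have h2 : (x * k) ^ n = x ^ n * k ^ n := (show Commute x k from hkc x).mul_pow n
  rw [he, h2] at h1
  have h3 : k ^ n = 1 := mul_eq_left.1 h1
  have h4 : orderOf k ∣ n := orderOf_dvd_of_pow_eq_one h3
  obtain ⟨m, hm⟩ := hZ ⟨k, hk⟩
  have h5 : k ^ p ^ m = 1 := congrArg Subtype.val hm
  have h6 : orderOf k ∣ p ^ m := orderOf_dvd_of_pow_eq_one h5
  have h7 : Nat.Coprime n (p ^ m) := by
    apply Nat.Coprime.pow_right
    rw [Nat.coprime_comm]
    exact (Nat.Prime.coprime_iff_not_dvd Fact.out).2 hn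
  have h8 : orderOf k ∣ Nat.gcd n (p ^ m) := Nat.dvd_gcd h4 h6
  rw [h7] at h8
  exact orderOf_eq_one_iff.1 (Nat.dvd_one.1 h8)

theorem normal_cen {A : Type} [Group A] {Z : Subgroup A} (hZc : Z ≤ Subgroup.center A) :
    Z.Normal := by
  constructor
  intro n hn g
  have h := Subgroup.mem_center_iff.1 (hZc hn) g
  rwa [h, mul_inv_cancel_right]

/-- elements with Sylow subgroup `Z` of the centraliser -/
theorem sa_cen [Fact p.Prime] (hZc : Z ≤ Subgroup.center Γ) (hZ : IsPGroup p Z) (hZH : Z ≤ H)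
    {x : Γ} (hx : x ∈ SA p H Z) : ∃ n : ℕ, ¬ p ∣ n ∧ x ^ n ∈ Z := by
  have hn : Subgroup.normalizer (Z : Set Γ) = ⊤ := by
    rw [Subgroup.normalizer_eq_top_iff]
    exact normal_cen hZc
  refine sa_pow (N := H) hZH hZ ?_
  rw [hn, inf_top_eq]
  exact hx

/-- centralisers in the quotient -/
theorem cent_quot [Fact p.Prime] [hKn : K.Normal] (hZc : Z ≤ Subgroup.center Γ) (hZ : IsPGroup p Z)
    (hKZ : K ≤ Z) (hKH : K ≤ H) {x : Γ} (hx : ∃ n : ℕ, ¬ p ∣ n ∧ x ^ n ∈ Z) :
    H.map (QuotientGroup.mk' K) ⊓ Subgroup.centralizer {(x : Γ ⧸ K)} =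
      (H ⊓ Subgroup.centralizer {x}).map (QuotientGroup.mk' K) := by
  ext y
  constructor
  · rintro ⟨⟨h, hh, rfl⟩, hy⟩
    refine ⟨h, ⟨hh, ?_⟩, rfl⟩
    change h ∈ Subgroup.centralizer {x}
    have h0 : ((h : Γ) : Γ ⧸ K) ∈ Subgroup.centralizer {(x : Γ ⧸ K)} := hy
    rw [Subgroup.mem_centralizer_singleton_iff] at h0 ⊢
    have h1 : x⁻¹ * (h * x * h⁻¹) ∈ K := by
      rw [← QuotientGroup.eq_one_iff, QuotientGroup.mk_mul, QuotientGroup.mk_inv,
        QuotientGroup.mk_mul, QuotientGroup.mk_mul, QuotientGroup.mk_inv, h0]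
      group
    have h2 := free_of hZc hZ hx (h := h) (k := x⁻¹ * (h * x * h⁻¹)) (hKZ h1)
      (by rw [mul_inv_cancel_left])
    have h3 : h * x * h⁻¹ = x := by
      have h4 := congrArg (fun t => x * t) h2
      simpa using h4
    rw [mul_inv_eq_iff_eq_mul] at h3
    exact h3
  · rintro ⟨h, ⟨hh, hc⟩, rfl⟩
    refine ⟨⟨h, hh, rfl⟩, ?_⟩
    change ((h : Γ) : Γ ⧸ K) ∈ Subgroup.centralizer {(x : Γ ⧸ K)}
    have hc' : h ∈ Subgroup.centralizer {x} := hc
    rw [Subgroup.mem_centralizer_singleton_iff] at hc' ⊢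
    rw [← QuotientGroup.mk_mul, ← QuotientGroup.mk_mul, hc']

theorem card_map_mk {J : Subgroup Γ} [hKn : K.Normal] (hKJ : K ≤ J) :
    Nat.card K * Nat.card (J.map (QuotientGroup.mk' K)) = Nat.card J := by
  have h1 := Subgroup.card_mul_index (K.subgroupOf J)
  have h2 : Nat.card (K.subgroupOf J) = Nat.card K :=
    Nat.card_congr (Subgroup.subgroupOfEquivOfLe hKJ).toEquiv
  have h3 : (K.subgroupOf J).index = Nat.card (J.map (QuotientGroup.mk' K)) := by
    have h4 : K.relIndex J = Nat.card (J.map (QuotientGroup.mk' K)) := by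
      have h5 := Subgroup.relIndex_ker (f := QuotientGroup.mk' K) J
      rwa [QuotientGroup.ker_mk'] at h5
    exact h4
  rw [← h1, h2, h3]

/-- the set `SA` and the quotient -/
theorem sa_quot [hp : Fact p.Prime] [hKn : K.Normal] (hZc : Z ≤ Subgroup.center Γ)
    (hZ : IsPGroup p Z)
    (hKZ : K ≤ Z) (hZH : Z ≤ H) (x : Γ) :
    (x : Γ ⧸ K) ∈ SA p (H.map (QuotientGroup.mk' K)) (Z.map (QuotientGroup.mk' K)) ↔
      x ∈ SA p H Z := by
  have hKH := hKZ.trans hZH
  have hmemH : (x : Γ ⧸ K) ∈ H.map (QuotientGroup.mk' K) ↔ x ∈ H := by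
    constructor
    · rintro ⟨y, hy, hxy⟩
      have h1 : y⁻¹ * x ∈ K := QuotientGroup.eq.1 hxy
      have h2 := H.mul_mem hy (hKH h1)
      rwa [mul_inv_cancel_left] at h2
    · exact fun h => ⟨x, h, rfl⟩
  have hZc' : Z.map (QuotientGroup.mk' K) ≤ Subgroup.center (Γ ⧸ K) := by
    rintro _ ⟨z, hz, rfl⟩
    rw [Subgroup.mem_center_iff]
    intro g
    obtain ⟨g, rfl⟩ := QuotientGroup.mk_surjective g
    have h1 := Subgroup.mem_center_iff.1 (hZc hz) g
    change ((g : Γ) : Γ ⧸ K) * (z : Γ ⧸ K) = z * g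
    rw [← QuotientGroup.mk_mul, ← QuotientGroup.mk_mul, h1]
  have hcardZ := card_map_mk (K := K) hKZ
  -- the equivalence under the assumption on the powers
  have key : (∃ n : ℕ, ¬ p ∣ n ∧ x ^ n ∈ Z) →
      ((x : Γ ⧸ K) ∈ SA p (H.map (QuotientGroup.mk' K)) (Z.map (QuotientGroup.mk' K)) ↔
      x ∈ SA p H Z) := by
    intro hx
    have h1 := cent_quot (H := H) hZc hZ hKZ hKH hx
    have hKle : K ≤ H ⊓ Subgroup.centralizer {x} := by
      intro k hk
      refine ⟨hKH hk, ?_⟩
      change k ∈ Subgroup.centralizer {x}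
      rw [Subgroup.mem_centralizer_singleton_iff]
      exact (Subgroup.mem_center_iff.1 (hZc (hKZ hk)) x).symm
    have h2 := card_map_mk (K := K) hKle
    have hpos : Nat.card K ≠ 0 := Nat.card_pos.ne'
    have h3 : (Nat.card ↥(H ⊓ Subgroup.centralizer {x})).factorization p =
        (Nat.card K).factorization p + (Nat.card ↥(H.map (QuotientGroup.mk' K) ⊓
          Subgroup.centralizer {(x : Γ ⧸ K)})).factorization p := by
      rw [h1, ← h2, Nat.factorization_mul hpos Nat.card_pos.ne', Finsupp.add_apply]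
    have h4 : (Nat.card Z).factorization p = (Nat.card K).factorization p +
        (Nat.card (Z.map (QuotientGroup.mk' K))).factorization p := by
      rw [← hcardZ, Nat.factorization_mul hpos Nat.card_pos.ne', Finsupp.add_apply]
    constructor
    · rintro ⟨h5, _, h6⟩
      refine ⟨hmemH.1 h5, fun r hr => (Subgroup.mem_center_iff.1 (hZc hr) x).symm, ?_⟩
      rw [h3, h4, h6]
    · rintro ⟨h5, _, h6⟩
      refine ⟨hmemH.2 h5, fun r hr => (Subgroup.mem_center_iff.1 (hZc' hr) _).symm, ?_⟩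
      rw [h3, h4] at h6
      exact Nat.add_left_cancel h6
  constructor
  · intro h
    refine (key ?_).1 h
    obtain ⟨n, hn, hxn⟩ := sa_cen hZc' (hZ.map _) (Subgroup.map_mono hZH) h
    refine ⟨n, hn, ?_⟩
    obtain ⟨z, hz, hxz⟩ := hxn
    have h1 : z⁻¹ * x ^ n ∈ K := QuotientGroup.eq.1 (by
      rw [QuotientGroup.mk_pow]
      exact hxz)
    have h2 := Z.mul_mem hz (hKZ h1)
    rwa [mul_inv_cancel_left] at h2
  · intro h
    exact (key (sa_cen hZc hZ hZH h)).2 h

variable {F : Type} [Field F]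

/-- translations by the elements of `K` -/
def tr (F : Type) [Field F] (K : Subgroup Γ) : Representation F K (Γ → F) where
  toFun k :=
    { toFun := fun f x => f (x * k)
      map_add' := fun _ _ => rfl
      map_smul' := fun _ _ => rfl }
  map_one' := by
    ext f x
    simp
  map_mul' a b := by
    apply LinearMap.ext
    intro f
    funext x
    change f (x * (a * b : Γ)) = f (x * a * b)
    rw [mul_assoc]

theorem tr_apply (k : K) (f : Γ → F) (x : Γ) : tr F K k f x = f (x * k) := rfl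

theorem mem_inv {f : Γ → F} : f ∈ (tr F K).invariants ↔ ∀ (k : K) (x : Γ), f (x * k) = f x := by
  constructor
  · intro h k x
    exact congrFun (h k) x
  · intro h k
    funext x
    exact h k x

/-- a stable set with a free action: the dimensions -/
theorem free_dim {S : Set Γ} (hKc : K ≤ Subgroup.center Γ)
    (hS : ∀ h ∈ H, ∀ x, h * x * h⁻¹ ∈ S ↔ x ∈ S) (hSK : ∀ k ∈ K, ∀ x, x * k ∈ S ↔ x ∈ S)
    (hfree : ∀ x ∈ S, ∀ h ∈ H, ∀ k ∈ K, h * x * h⁻¹ = x * k → k = 1) :
    Module.finrank F (VS (F := F) S H) =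
      Nat.card K * Module.finrank F ↥(VS (F := F) S H ⊓ (tr F K).invariants) := by
  have hc : ∀ k ∈ K, ∀ g : Γ, g * k = k * g := fun k hk g =>
    Subgroup.mem_center_iff.1 (hKc hk) g
  -- the orbits
  let st : Setoid Γ :=
    { r := fun x y => ∃ h ∈ H, ∃ k ∈ K, y = h * x * h⁻¹ * k
      iseqv :=
        { refl := fun x => ⟨1, H.one_mem, 1, K.one_mem, by simp⟩
          symm := by
            rintro x y ⟨h, hh, k, hk, rfl⟩
            refine ⟨h⁻¹, H.inv_mem hh, k⁻¹, K.inv_mem hk, ?_⟩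
            have h1 := hc k hk
            rw [show h⁻¹ * (h * x * h⁻¹ * k) * h⁻¹⁻¹ * k⁻¹ = x * (h⁻¹ * (k * h)) * k⁻¹ by group,
              ← h1 h]
            group
          trans := by
            rintro x y w ⟨h, hh, k, hk, rfl⟩ ⟨h', hh', k', hk', rfl⟩
            refine ⟨h' * h, H.mul_mem hh' hh, k * k', K.mul_mem hk hk', ?_⟩
            have h1 := hc k hk h'⁻¹
            rw [show h' * (h * x * h⁻¹ * k) * h'⁻¹ * k' = h' * h * x * h⁻¹ * (k * h'⁻¹) * k' by group,
              ← h1]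
            group } }
  let rep : Γ → Γ := fun x => Quotient.out (Quotient.mk st x)
  have hrep : ∀ x, ∃ k ∈ K, ∃ h ∈ H, x = h * rep x * h⁻¹ * k := by
    intro x
    have h1 : st.r (rep x) x := Quotient.exact (Quotient.out_eq (Quotient.mk st x))
    obtain ⟨h, hh, k, hk, h2⟩ := h1
    exact ⟨k, hk, h, hh, h2⟩
  choose κ hκK hκ using hrep
  have huniq : ∀ x ∈ S, ∀ k ∈ K, ∀ h ∈ H, x = h * rep x * h⁻¹ * k → κ x = k := by
    intro x hx k hk h hh he
    obtain ⟨h', hh', he'⟩ := hκ x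
    have hrS : rep x ∈ S := by
      rw [he] at hx
      rw [hSK k hk, hS h hh] at hx
      exact hx
    have h1 : h * rep x * h⁻¹ * k = h' * rep x * h'⁻¹ * κ x := by rw [← he, ← he']
    have h2 : (h'⁻¹ * h) * rep x * (h'⁻¹ * h)⁻¹ = rep x * (κ x * k⁻¹) := by
      have h3 := congrArg (fun t => h'⁻¹ * t * k⁻¹ * h') h1
      have e1 : h'⁻¹ * (h * rep x * h⁻¹ * k) * k⁻¹ * h' =
          (h'⁻¹ * h) * rep x * (h'⁻¹ * h)⁻¹ := by group
      have e2 : h'⁻¹ * (h' * rep x * h'⁻¹ * κ x) * k⁻¹ * h' =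
          rep x * (h'⁻¹ * ((κ x * k⁻¹) * h')) := by group
      have e3 := hc (κ x * k⁻¹) (K.mul_mem (hκK x) (K.inv_mem hk)) h'
      rw [e1, e2, ← e3, inv_mul_cancel_left] at h3
      exact h3
    have h3 := hfree (rep x) hrS (h'⁻¹ * h) (H.mul_mem (H.inv_mem hh') hh) (κ x * k⁻¹)
      (K.mul_mem (hκK x) (K.inv_mem hk)) h2
    exact mul_inv_eq_one.1 h3
  have hreq : ∀ x y, st.r x y → rep x = rep y := by
    intro x y h
    change Quotient.out _ = Quotient.out _
    rw [Quotient.sound h]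
  have hκconj : ∀ x ∈ S, ∀ h ∈ H, κ (h * x * h⁻¹) = κ x := by
    intro x hx h hh
    obtain ⟨a, ha, he⟩ := hκ x
    refine huniq _ ((hS h hh x).2 hx) (κ x) (hκK x) (h * a) (H.mul_mem hh ha) ?_
    have h1 : rep (h * x * h⁻¹) = rep x :=
      (hreq x _ ⟨h, hh, 1, K.one_mem, by simp⟩).symm
    rw [h1]
    conv_lhs => rw [he]
    have h2 := hc (κ x) (hκK x) h⁻¹
    rw [show h * (a * rep x * a⁻¹ * κ x) * h⁻¹ = h * a * rep x * a⁻¹ * (κ x * h⁻¹) by group, ← h2]
    group
  have hκmul : ∀ x ∈ S, ∀ k ∈ K, κ (x * k) = κ x * k := by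
    intro x hx k hk
    obtain ⟨a, ha, he⟩ := hκ x
    refine huniq _ ((hSK k hk x).2 hx) (κ x * k) (K.mul_mem (hκK x) hk) a ha ?_
    have h1 : rep (x * k) = rep x :=
      (hreq x _ ⟨1, H.one_mem, k, hk, by simp⟩).symm
    rw [h1]
    conv_lhs => rw [he]
    group
  -- the linear equivalence
  set V := VS (F := F) S H with hV
  set V0 := V ⊓ (tr F K).invariants with hV0
  have hV0K : ∀ g : V0, ∀ k ∈ K, ∀ x, g.1 (x * k) = g.1 x := fun g k hk x =>
    mem_inv.1 (Submodule.mem_inf.1 g.2).2 ⟨k, hk⟩ x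
  let e : V ≃ₗ[F] (K → V0) :=
    { toFun := fun f k => ⟨fun x => if x ∈ S then f.1 (x * (κ x)⁻¹ * k) else 0, by
        refine Submodule.mem_inf.2 ⟨⟨fun x hx => if_neg hx, fun h hh x => ?_⟩, ?_⟩
        · by_cases hx : x ∈ S
          · have hx' := (hS h hh x).2 hx
            simp only [hx, hx', if_true]
            rw [hκconj x hx h hh]
            have h1 := hc ((κ x)⁻¹ * k) (K.mul_mem (K.inv_mem (hκK x)) k.2) h⁻¹
            have h2 : h * x * h⁻¹ * (κ x)⁻¹ * k = h * (x * (κ x)⁻¹ * k) * h⁻¹ := by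
              rw [show h * x * h⁻¹ * (κ x)⁻¹ * k = h * x * (h⁻¹ * ((κ x)⁻¹ * k)) by group, h1]
              group
            rw [h2]
            exact f.2.2 h hh _
          · have hx' : h * x * h⁻¹ ∉ S := fun h' => hx ((hS h hh x).1 h')
            simp only [hx, hx', if_false]
        · rw [mem_inv]
          intro k' x
          by_cases hx : x ∈ S
          · have hx' := (hSK k' k'.2 x).2 hx
            simp only [hx, hx', if_true]
            rw [hκmul x hx k' k'.2]
            congr 1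
            have h1 := hc (κ x)⁻¹ (K.inv_mem (hκK x)) (k' : Γ)⁻¹
            rw [mul_inv_rev, h1]
            have h2 := hc k' k'.2 (κ x)⁻¹
            rw [show x * (k' : Γ) * ((κ x)⁻¹ * (k' : Γ)⁻¹) * k =
              x * ((k' : Γ) * (κ x)⁻¹) * (k' : Γ)⁻¹ * k by group, ← h2]
            group
          · have hx' : x * (k' : Γ) ∉ S := fun h' => hx ((hSK k' k'.2 x).1 h')
            simp only [hx, hx', if_false]⟩
      invFun := fun g => ⟨fun x => (g ⟨κ x, hκK x⟩).1 x, by
        refine ⟨fun x hx => ?_, fun h hh x => ?_⟩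
        · exact (Submodule.mem_inf.1 (g ⟨κ x, hκK x⟩).2).1.1 x hx
        · by_cases hx : x ∈ S
          · have h1 : (⟨κ (h * x * h⁻¹), hκK _⟩ : K) = ⟨κ x, hκK x⟩ :=
              Subtype.ext (hκconj x hx h hh)
            change (g ⟨κ (h * x * h⁻¹), hκK _⟩).1 (h * x * h⁻¹) = (g ⟨κ x, hκK x⟩).1 x
            rw [h1]
            exact (Submodule.mem_inf.1 (g ⟨κ x, hκK x⟩).2).1.2 h hh x
          · have hx' : h * x * h⁻¹ ∉ S := fun h' => hx ((hS h hh x).1 h')
            change (g ⟨κ (h * x * h⁻¹), hκK _⟩).1 (h * x * h⁻¹) = (g ⟨κ x, hκK x⟩).1 x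
            rw [(Submodule.mem_inf.1 (g ⟨κ x, hκK x⟩).2).1.1 x hx,
              (Submodule.mem_inf.1 (g ⟨κ (h * x * h⁻¹), hκK _⟩).2).1.1 _ hx']⟩
      map_add' := fun f g => by
        funext k
        apply Subtype.ext
        funext x
        change (if x ∈ S then (f.1 + g.1) (x * (κ x)⁻¹ * k) else 0) =
          (if x ∈ S then f.1 (x * (κ x)⁻¹ * k) else 0) +
            (if x ∈ S then g.1 (x * (κ x)⁻¹ * k) else 0)
        by_cases hx : x ∈ S
        · simp only [hx, if_true]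
          rfl
        · simp only [hx, if_false, add_zero]
      map_smul' := fun a f => by
        funext k
        apply Subtype.ext
        funext x
        change (if x ∈ S then (a • f.1) (x * (κ x)⁻¹ * k) else 0) =
          a • (if x ∈ S then f.1 (x * (κ x)⁻¹ * k) else 0)
        by_cases hx : x ∈ S
        · simp only [hx, if_true]
          rfl
        · simp only [hx, if_false, smul_zero]
      left_inv := fun f => by
        apply Subtype.ext
        funext x
        change (if x ∈ S then f.1 (x * (κ x)⁻¹ * κ x) else 0) = f.1 x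
        by_cases hx : x ∈ S
        · rw [if_pos hx, inv_mul_cancel_right]
        · rw [if_neg hx, f.2.1 x hx]
      right_inv := fun g => by
        funext k
        apply Subtype.ext
        funext x
        change (if x ∈ S then (g ⟨κ (x * (κ x)⁻¹ * k), hκK _⟩).1 (x * (κ x)⁻¹ * k) else 0) =
          (g k).1 x
        by_cases hx : x ∈ S
        · rw [if_pos hx]
          have h1 : x * (κ x)⁻¹ * k = x * ((κ x)⁻¹ * k) := mul_assoc _ _ _
          have hk' : (κ x)⁻¹ * k ∈ K := K.mul_mem (K.inv_mem (hκK x)) k.2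
          have h2 : (⟨κ (x * (κ x)⁻¹ * k), hκK _⟩ : K) = k := by
            apply Subtype.ext
            change κ (x * (κ x)⁻¹ * k) = k
            rw [h1, hκmul x hx _ hk', mul_inv_cancel_left]
          rw [h2, h1, hV0K (g k) _ hk' x]
        · rw [if_neg hx]
          exact ((Submodule.mem_inf.1 (g k).2).1.1 x hx).symm }
  have : Fintype K := Fintype.ofFinite K
  rw [e.finrank_eq, Module.finrank_pi_fintype, Finset.sum_const, Finset.card_univ, smul_eq_mul,
    Nat.card_eq_fintype_card]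

end

end Pool.Agent.Q18.PR
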