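import Pool.Agent.Q18.PR.Lam
import Pool.Agent.Q18.K.Cls
import Pool.Agent.Q18.K.Cyc

/-!
# Characters over a character of a central subgroup
-/

open scoped BigOperators Classical

set_option linter.unusedSectionVars false

noncomputable section

namespace Pool.Agent.Q18.PR

open Pool.Agent.Q18.K
open Pool.Agent.Helper884.IC (IsIrrChar irr_finite)
open Pool.Agent.Y63.NV (IsClassFun IsBlock Knum centralValue redC)
open Pool.Agent.Y63.KR
open Pool.Agent.Y63.AWC (irr_comp)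
open Pool.Agent.Y286.NV (centralValue_comp irr_class)
open Pool.Agent.Y930.NV (redC_mul redC_one redC_sum)

section red

variable {F : Type} [Field F]

theorem int_root {k : ℕ} (hk : 0 < k) {ζ : ℂ} (h : ζ ^ k = 1) : IsIntegral ℤ ζ :=
  IsIntegral.of_pow hk (by rw [h]; exact isIntegral_one)

theorem redC_pow' (red : integralClosure ℤ ℂ →+* F) {a : ℂ} (ha : IsIntegral ℤ a) (k : ℕ) :
    redC red (a ^ k) = redC red a ^ k := by
  induction k with
  | zero => rw [pow_zero, pow_zero, redC_one]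
  | succ k ih => rw [pow_succ, pow_succ, redC_mul red (ha.pow k) ha, ih]

/-- the reduction is injective on the roots of unity of order prime to `p` -/
theorem red_inj {p : ℕ} [hp : Fact p.Prime] [CharP F p] (red : integralClosure ℤ ℂ →+* F)
    {k : ℕ} (hk : ¬ p ∣ k) {ζ ξ : ℂ} (h1 : ζ ^ k = 1) (h2 : ξ ^ k = 1)
    (h : redC red ζ = redC red ξ) : ζ = ξ := by
  have hk0 : 0 < k := Nat.pos_of_ne_zero fun h => hk (h ▸ dvd_zero p)
  have i1 := int_root hk0 h1
  have i2 := int_root hk0 h2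
  set η := ζ * ξ ^ (k - 1) with hη
  have hξ : ξ * ξ ^ (k - 1) = 1 := by
    rw [← pow_succ', Nat.sub_add_cancel hk0, h2]
  have e1 : η ^ k = 1 := by
    rw [hη, mul_pow, h1, one_mul, ← pow_mul, mul_comm, pow_mul, h2, one_pow]
  have i3 := int_root hk0 e1
  have e2 : redC red η = 1 := by
    rw [hη, redC_mul red i1 (i2.pow _), h, ← redC_mul red i2 (i2.pow _), hξ, redC_one]
  by_cases he : η = 1
  · have h3 : ζ * (ξ * ξ ^ (k - 1)) = ξ * η := by rw [hη]; ring
    rw [hξ, he, mul_one, mul_one] at h3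
    exact h3
  · exfalso
    have h3 : ∑ i ∈ Finset.range k, η ^ i = 0 := by
      have h4 := mul_geom_sum η k
      rw [e1, sub_self] at h4
      rcases mul_eq_zero.1 h4 with h5 | h5
      · exact absurd (sub_eq_zero.1 h5) he
      · exact h5
    have h4 := congrArg (redC red) h3
    rw [redC_sum red _ _ (fun i _ => i3.pow i)] at h4
    have h5 : ∀ i ∈ Finset.range k, redC red (η ^ i) = 1 := fun i _ => by
      rw [redC_pow' red i3, e2, one_pow]
    rw [Finset.sum_congr rfl h5, Finset.sum_const, Finset.card_range, nsmul_eq_mul, mul_one] at h4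
    have h6 : redC red 0 = 0 := by
      unfold redC
      rw [dif_pos isIntegral_zero]
      exact map_zero red
    rw [h6] at h4
    exact hk ((CharP.cast_eq_zero_iff F p k).1 h4)

end red

section

variable {Γ : Type} [Group Γ] [Finite Γ] {p : ℕ} {Z P H : Subgroup Γ} {F : Type} [Field F]

/-- the value of the central character at a central element -/
theorem cv_central (red : integralClosure ℤ ℂ →+* F) (hZc : Z ≤ Subgroup.center Γ) (hZH : Z ≤ H)
    {χ : H → ℂ} (hχ : IsIrrChar χ) {ν : Z →* ℂˣ} (h : LO ν χ) (z : Z) :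
    centralValue red χ (fun x : H => (Pi.single (z : Γ) 1 : Γ → F) x) = redC red (ν z) := by
  set z₀ : H := ⟨z, hZH z.2⟩ with hz₀
  have hc : ∀ g : H, g * z₀ * g⁻¹ = z₀ := by
    intro g
    apply Subtype.ext
    change (g : Γ) * z * (g : Γ)⁻¹ = z
    rw [Subgroup.mem_center_iff.1 (hZc z.2) g, mul_inv_cancel_right]
  have hcj : ∀ y : H, IsConj y z₀ → y = z₀ := by
    intro y hy
    obtain ⟨c, hc'⟩ := isConj_iff.1 hy
    have h1 : y = c⁻¹ * z₀ * c⁻¹⁻¹ := by
      rw [← hc']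
      group
    rw [h1, hc]
  have hout : (ConjClasses.mk z₀).out = z₀ := by
    apply hcj
    rw [← ConjClasses.mk_eq_mk_iff_isConj]
    exact Quotient.out_eq (ConjClasses.mk z₀)
  unfold centralValue
  rw [finsum_eq_single _ (ConjClasses.mk z₀)]
  · rw [hout]
    have h1 : (Pi.single (z : Γ) 1 : Γ → F) (z₀ : Γ) = 1 := Pi.single_eq_same _ _
    have h2 : Nat.card (ConjClasses.mk z₀).carrier = 1 := by
      have h3 : (ConjClasses.mk z₀).carrier = {z₀} := by
        ext y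
        rw [ConjClasses.mem_carrier_iff_mk_eq, ConjClasses.mk_eq_mk_iff_isConj,
          Set.mem_singleton_iff]
        exact ⟨hcj y, fun h => by rw [h]⟩
      rw [h3, Nat.card_coe_set_eq, Set.ncard_singleton]
    have h3 : χ z₀ = (ν z : ℂ) * χ 1 := h z 1 z₀ (by rw [Subgroup.coe_one, mul_one])
    change (Pi.single (z : Γ) 1 : Γ → F) (z₀ : Γ) * _ = _
    rw [h1, h2, h3, Nat.cast_one, one_mul, one_mul, mul_div_assoc, div_self (irr_one hχ), mul_one]
  · intro C hC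
    have h1 : ((C.out : H) : Γ) ≠ (z : Γ) := by
      intro h2
      apply hC
      have h3 : C.out = z₀ := Subtype.ext h2
      rw [← h3]
      exact (Quotient.out_eq C).symm
    change (Pi.single (z : Γ) 1 : Γ → F) ((C.out : H) : Γ) * _ = _
    rw [Pi.single_eq_of_ne h1, zero_mul]

theorem single_class (hZc : Z ≤ Subgroup.center Γ) (z : Z) :
    IsClassFun (Pi.single (z : Γ) 1 : Γ → F) := by
  intro g x
  have h1 : g * x * g⁻¹ = (z : Γ) ↔ x = (z : Γ) := by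
    have h2 := Subgroup.mem_center_iff.1 (hZc z.2) g
    constructor
    · intro h
      have h3 : x = g⁻¹ * (g * x * g⁻¹) * g := by group
      rw [h3, h, mul_assoc, ← h2, inv_mul_cancel_left]
    · rintro rfl
      rw [h2, mul_inv_cancel_right]
  by_cases hx : x = (z : Γ)
  · rw [h1.2 hx, hx]
  · rw [Pi.single_eq_of_ne hx, Pi.single_eq_of_ne (fun h => hx (h1.1 h))]

/-- `B` lies over the `p'`-part of `ν` -/
def CC (p : ℕ) (red : integralClosure ℤ ℂ →+* F) (B : (Γ → F) → F) (ν : Z →* ℂˣ) : Prop :=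
  ∀ z : Z, (∃ k : ℕ, ¬ p ∣ k ∧ z ^ k = 1) → B (Pi.single (z : Γ) 1) = redC red (ν z)

theorem cc_of (p : ℕ) (red : integralClosure ℤ ℂ →+* F) (hZc : Z ≤ Subgroup.center Γ) (hZH : Z ≤ H)
    {χ : H → ℂ} (hχ : IsIrrChar χ) {ν : Z →* ℂˣ} (h : LO ν χ) {B : (Γ → F) → F}
    (hB : ∀ f : Γ → F, IsClassFun f → centralValue red χ (fun x => f x) = B f) :
    CC p red B ν := fun z _ => by
  rw [← hB _ (single_class hZc z), cv_central red hZc hZH hχ h z]

/-- the restriction to the Sylow subgroup -/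
def rP (hPZ : P ≤ Z) (ν : Z →* ℂˣ) : P →* ℂˣ := ν.comp (Subgroup.inclusion hPZ)

theorem rP_apply (hPZ : P ≤ Z) (ν : Z →* ℂˣ) (k : P) : rP hPZ ν k = ν ⟨k, hPZ k.2⟩ := rfl

theorem lo_rP (hPZ : P ≤ Z) {ν : Z →* ℂˣ} {χ : H → ℂ} (h : LO ν χ) : LO (rP hPZ ν) χ :=
  fun k x y hxy => h ⟨k, hPZ k.2⟩ x y hxy

/-- the `p`-part and the `p'`-part -/
theorem z_dec [hp : Fact p.Prime] (hZc : Z ≤ Subgroup.center Γ) (hPZ : P ≤ Z) (hP : IsPGroup p P)
    (hPs : ¬ p ∣ P.relIndex Z) (z : Z) :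
    ∃ a b : Z, z = a * b ∧ (a : Γ) ∈ P ∧ ∃ k : ℕ, ¬ p ∣ k ∧ b ^ k = 1 := by
  set m := P.relIndex Z with hm
  obtain ⟨c, hc⟩ := IsPGroup.iff_card.1 hP
  have hPn : P.Normal := normal_cen (hPZ.trans hZc)
  have h1 : (z : Γ) ^ m ∈ P := by
    have h2 : (P.subgroupOf Z).Normal := inferInstance
    have h3 := Subgroup.pow_index_mem (P.subgroupOf Z) z
    exact h3
  have h2 : ((z : Γ) ^ m) ^ p ^ c = 1 := by
    have h3 : (⟨(z : Γ) ^ m, h1⟩ : P) ^ Nat.card P = 1 := pow_card_eq_one'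
    rw [hc] at h3
    exact congrArg Subtype.val h3
  have hcop : IsCoprime (m : ℤ) ((p ^ c : ℕ) : ℤ) := by
    rw [Nat.isCoprime_iff_coprime]
    exact Nat.Prime.coprime_pow_of_not_dvd (m := c) hp.out hPs
  obtain ⟨u, v, huv⟩ := hcop
  refine ⟨(z ^ m) ^ u, (z ^ p ^ c) ^ v, ?_, ?_, m, hPs, ?_⟩
  · rw [← zpow_natCast, ← zpow_natCast, ← zpow_mul, ← zpow_mul, ← zpow_add, mul_comm (m : ℤ),
      mul_comm ((p ^ c : ℕ) : ℤ), huv, zpow_one]
  · rw [Subgroup.coe_zpow, Subgroup.coe_pow]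
    exact P.zpow_mem h1 u
  · rw [← zpow_natCast, ← zpow_mul, mul_comm, zpow_mul, zpow_natCast, ← pow_mul, mul_comm,
      pow_mul]
    have h3 : (z ^ m) ^ p ^ c = 1 := Subtype.ext (by
      rw [Subgroup.coe_pow, Subgroup.coe_pow, h2, Subgroup.coe_one])
    rw [h3, one_zpow]

/-- the characters of `B` over `ν` -/
theorem lo_iff [hp : Fact p.Prime] [CharP F p] (red : integralClosure ℤ ℂ →+* F)
    (hZc : Z ≤ Subgroup.center Γ) (hPZ : P ≤ Z) (hP : IsPGroup p P)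
    (hPs : ¬ p ∣ P.relIndex Z) (hZH : Z ≤ H) {B : (Γ → F) → F} {ν : Z →* ℂˣ}
    (hcc : CC p red B ν) {χ : H → ℂ} (hχ : IsIrrChar χ)
    (hB : ∀ f : Γ → F, IsClassFun f → centralValue red χ (fun x => f x) = B f) :
    LO ν χ ↔ LO (rP hPZ ν) χ := by
  refine ⟨lo_rP hPZ, fun h => ?_⟩
  obtain ⟨ν', h'⟩ := exists_lo hZc hZH hχ
  have h1 : rP hPZ ν' = rP hPZ ν := lo_unique (hPZ.trans hZH) hχ (lo_rP hPZ h') h
  have h2 := cc_of p red hZc hZH hχ h' hB
  have h3 : ν' = ν := by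
    ext z
    obtain ⟨a, b, rfl, ha, k, hk, hbk⟩ := z_dec hZc hPZ hP hPs z
    have h4 : ν' a = ν a := by
      have h5 := DFunLike.congr_fun h1 ⟨(a : Γ), ha⟩
      rw [rP_apply, rP_apply] at h5
      exact h5
    have h5 : (ν' b : ℂ) = ν b := by
      refine red_inj (p := p) (F := F) red hk ?_ ?_ ?_
      · rw [← Units.val_pow_eq_pow_val, ← map_pow, hbk, map_one, Units.val_one]
      · rw [← Units.val_pow_eq_pow_val, ← map_pow, hbk, map_one, Units.val_one]
      · rw [← h2 b ⟨k, hk, hbk⟩, hcc b ⟨k, hk, hbk⟩]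
    rw [map_mul, map_mul, h4, Units.val_mul, Units.val_mul, h5]
  rw [h3] at h'
  exact h'

theorem nl_iff [hp : Fact p.Prime] [CharP F p] (red : integralClosure ℤ ℂ →+* F)
    (hZc : Z ≤ Subgroup.center Γ) (hPZ : P ≤ Z) (hP : IsPGroup p P)
    (hPs : ¬ p ∣ P.relIndex Z) (hZH : Z ≤ H) {B : (Γ → F) → F} {ν : Z →* ℂˣ}
    (hcc : CC p red B ν) (Q : ∀ H : Subgroup Γ, (H → ℂ) → Prop) :
    NL red B (fun H χ => LO ν χ ∧ Q H χ) H = NL red B (fun H χ => LO (rP hPZ ν) χ ∧ Q H χ) H := by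
  unfold NL
  refine Nat.card_congr (Equiv.subtypeEquivRight fun χ => ?_)
  refine and_congr_right fun hχ => ?_
  constructor
  · rintro ⟨⟨h1, h2⟩, h3⟩
    exact ⟨⟨(lo_iff red hZc hPZ hP hPs hZH hcc hχ h3).1 h1, h2⟩, h3⟩
  · rintro ⟨⟨h1, h2⟩, h3⟩
    exact ⟨⟨(lo_iff red hZc hPZ hP hPs hZH hcc hχ h3).2 h1, h2⟩, h3⟩

theorem nl_zero (p : ℕ) (red : integralClosure ℤ ℂ →+* F)
    (hZc : Z ≤ Subgroup.center Γ) (hZH : Z ≤ H) {B : (Γ → F) → F} {ν : Z →* ℂˣ}
    (hcc : ¬ CC p red B ν) (Q : ∀ H : Subgroup Γ, (H → ℂ) → Prop) :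
    NL red B (fun H χ => LO ν χ ∧ Q H χ) H = 0 := by
  unfold NL
  rw [Nat.card_eq_zero]
  left
  refine ⟨fun χ => hcc ?_⟩
  exact cc_of p red hZc hZH χ.2.1 χ.2.2.1.1 χ.2.2.2

/-- conjugation -/
theorem nl_conj (red : integralClosure ℤ ℂ →+* F) (B : (Γ → F) → F)
    (Q : ∀ H : Subgroup Γ, (H → ℂ) → Prop)
    (hQ : ∀ (g : Γ) (H H' : Subgroup Γ) (e : H ≃* H'), (∀ x : H, ((e x : H') : Γ) = g * x * g⁻¹) →
      ∀ χ : H' → ℂ, Q H' χ → Q H (fun x => χ (e x))) (g : Γ) (H : Subgroup Γ) :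
    NL red B Q (conjSub g H) = NL red B Q H := by
  let e : H ≃* conjSub g H := (MulAut.conj g).subgroupMap H
  have he : ∀ x : H, ((e x : conjSub g H) : Γ) = g * x * g⁻¹ := fun x => rfl
  have he' : ∀ y : conjSub g H, ((e.symm y : H) : Γ) = g⁻¹ * y * g⁻¹⁻¹ := fun y => by
    have h1 := he (e.symm y)
    rw [e.apply_symm_apply] at h1
    rw [h1]
    group
  have hval : ∀ χ : conjSub g H → ℂ, IsIrrChar χ → ∀ z : Γ → F, IsClassFun z →
      centralValue red (fun x => χ (e x)) (fun x : H => z x) =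
        centralValue red χ (fun x => z x) := by
    intro χ hχ z hz
    have h1 := centralValue_comp red e χ (irr_class hχ) (fun x => z x)
      (fun a x => hz a x)
    rw [← h1]
    congr 1
    funext x
    change z x = z (e x : conjSub g H)
    rw [he, hz]
  unfold NL
  refine Nat.card_congr
    { toFun := fun χ => ⟨fun x => χ.1 (e x), irr_comp e χ.2.1, ?_, ?_⟩
      invFun := fun χ => ⟨fun x => χ.1 (e.symm x), irr_comp e.symm χ.2.1, ?_, ?_⟩
      left_inv := ?_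
      right_inv := ?_ }
  · exact hQ g H _ e he χ.1 χ.2.2.1
  · intro z hz
    rw [hval χ.1 χ.2.1 z hz]
    exact χ.2.2.2 z hz
  · exact hQ g⁻¹ _ H e.symm he' χ.1 χ.2.2.1
  · intro z hz
    have h1 := hval (fun x => χ.1 (e.symm x)) (irr_comp e.symm χ.2.1) z hz
    have h2 : (fun x => (fun x => χ.1 (e.symm x)) (e x)) = χ.1 := by
      funext x
      change χ.1 (e.symm (e x)) = χ.1 x
      rw [e.symm_apply_apply]
    rw [h2] at h1
    rw [← h1]
    exact χ.2.2.2 z hz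
  · intro χ
    apply Subtype.ext
    funext x
    change χ.1 (e (e.symm x)) = χ.1 x
    rw [e.apply_symm_apply]
  · intro χ
    apply Subtype.ext
    funext x
    change χ.1 (e.symm (e x)) = χ.1 x
    rw [e.symm_apply_apply]

theorem lo_conj (hZc : Z ≤ Subgroup.center Γ) (ν : Z →* ℂˣ) (g : Γ) (H H' : Subgroup Γ)
    (e : H ≃* H') (he : ∀ x : H, ((e x : H') : Γ) = g * x * g⁻¹) (χ : H' → ℂ) (h : LO ν χ) :
    LO ν (fun x => χ (e x)) := by
  intro k x y hxy
  refine h k (e x) (e y) ?_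
  rw [he, he, hxy]
  have h1 := Subgroup.mem_center_iff.1 (hZc k.2) g
  rw [← mul_assoc, h1]
  group

/-- the alternating sum over the classes of chains -/
def ALT (p : ℕ) (P : Subgroup Γ) (red : integralClosure ℤ ℂ →+* F) (B : (Γ → F) → F)
    (Q : ∀ H : Subgroup Γ, (H → ℂ) → Prop) : ℤ :=
  ∑ᶠ c : Quotient (chS p P), (-1) ^ (Quotient.out c).1.ncard *
      (NL red B Q (chainStabilizer (Quotient.out c).1) : ℤ)

theorem alt_ab (red : integralClosure ℤ ℂ →+* F) (B : (Γ → F) → F) (hPn : P.Normal)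
    (Q : ∀ H : Subgroup Γ, (H → ℂ) → Prop)
    (hQ : ∀ (g : Γ) (H H' : Subgroup Γ) (e : H ≃* H'), (∀ x : H, ((e x : H') : Γ) = g * x * g⁻¹) →
      ∀ χ : H' → ℂ, Q H' χ → Q H (fun x => χ (e x)))
    [Fintype {σ : Set (Subgroup Γ) // CH p ⊤ P σ}] :
    (Nat.card Γ : ℤ) * ALT p P red B Q = AB p P red B Q :=
  card_mul_cls (p := p) hPn (fun H => (NL red B Q H : ℤ)) (fun g H => by rw [nl_conj red B Q hQ])

theorem card_cancel {a b : ℤ} (h : (Nat.card Γ : ℤ) * a = Nat.card Γ * b) : a = b := by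
  have hpos : (Nat.card Γ : ℤ) ≠ 0 := by exact_mod_cast Nat.card_pos.ne'
  exact mul_left_cancel₀ hpos h

variable [hp : Fact p.Prime] [IsAlgClosed F] [CharP F p]

theorem alt_iff (red : integralClosure ℤ ℂ →+* F)
    (hZc : Z ≤ Subgroup.center Γ) (hPZ : P ≤ Z) (hP : IsPGroup p P)
    (hPs : ¬ p ∣ P.relIndex Z) {B : (Γ → F) → F} {ν : Z →* ℂˣ}
    (hcc : CC p red B ν) (Q : ∀ H : Subgroup Γ, (H → ℂ) → Prop) :
    ALT p P red B (fun H χ => LO ν χ ∧ Q H χ) =
      ALT p P red B (fun H χ => LO (rP hPZ ν) χ ∧ Q H χ) := by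
  unfold ALT
  refine finsum_congr fun c => ?_
  rw [nl_iff red hZc hPZ hP hPs (center_le_stab hZc _) hcc]

theorem alt_zero (red : integralClosure ℤ ℂ →+* F)
    (hZc : Z ≤ Subgroup.center Γ) {B : (Γ → F) → F} {ν : Z →* ℂˣ}
    (hcc : ¬ CC p red B ν) (Q : ∀ H : Subgroup Γ, (H → ℂ) → Prop) :
    ALT p P red B (fun H χ => LO ν χ ∧ Q H χ) = 0 := by
  unfold ALT
  refine finsum_eq_zero_of_forall_eq_zero fun c => ?_
  rw [nl_zero p red hZc (center_le_stab hZc _) hcc, Nat.cast_zero, mul_zero]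

/-- **the sum over one character is a fraction of the whole sum** -/
theorem main_one (red : integralClosure ℤ ℂ →+* F)
    (hZc : Z ≤ Subgroup.center Γ) (hPZ : P ≤ Z) (hP : IsPGroup p P)
    (hPs : ¬ p ∣ P.relIndex Z) {B : (Γ → F) → F} (hB : IsBlock B) {ν : Z →* ℂˣ}
    (hcc : CC p red B ν) :
    (Nat.card P : ℤ) * ALT p P red B (fun _ χ => LO ν χ) = ALT p P red B (fun _ _ => True) := by
  have : Fintype {σ : Set (Subgroup Γ) // CH p ⊤ P σ} := Fintype.ofFinite _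
  have hPc := hPZ.trans hZc
  have hPn : P.Normal := normal_cen hPc
  have h0 : ALT p P red B (fun _ χ => LO ν χ) = ALT p P red B (fun _ χ => LO (rP hPZ ν) χ) := by
    have h1 := alt_iff red hZc hPZ hP hPs hcc (fun _ _ => True)
    simp only [and_true] at h1
    exact h1
  apply card_cancel (Γ := Γ)
  rw [h0, mul_left_comm, alt_ab red B hPn _ (fun g H H' e he χ h => lo_conj hPc _ g H H' e he χ h),
    alt_ab red B hPn _ (fun _ _ _ _ _ _ _ => trivial)]
  exact ab_lam red hPc hP hB (rP hPZ ν)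

/-- **two characters with the same `p'`-part** -/
theorem main_two (red : integralClosure ℤ ℂ →+* F)
    (hZc : Z ≤ Subgroup.center Γ) (hPZ : P ≤ Z) (hP : IsPGroup p P)
    (hPs : ¬ p ∣ P.relIndex Z) {B : (Γ → F) → F} (hB : IsBlock B) {ν μ : Z →* ℂˣ}
    (h : ∀ z : Z, (∃ k : ℕ, ¬ p ∣ k ∧ z ^ k = 1) → ν z = μ z) :
    ALT p P red B (fun _ χ => LO ν χ) = ALT p P red B (fun _ χ => LO μ χ) := by
  by_cases hcc : CC p red B ν
  · have hcc' : CC p red B μ := fun z hz => by rw [hcc z hz, h z hz]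
    have h1 := main_one red hZc hPZ hP hPs hB hcc
    rw [← main_one red hZc hPZ hP hPs hB hcc'] at h1
    have hpos : (Nat.card P : ℤ) ≠ 0 := by exact_mod_cast Nat.card_pos.ne'
    exact mul_left_cancel₀ hpos h1
  · have hcc' : ¬ CC p red B μ := fun h' => hcc fun z hz => by rw [h' z hz, h z hz]
    have h1 := alt_zero (p := p) (P := P) red hZc hcc (fun _ _ => True)
    have h2 := alt_zero (p := p) (P := P) red hZc hcc' (fun _ _ => True)
    simp only [and_true] at h1 h2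
    rw [h1, h2]

/-- **the fixed characters** -/
theorem main_fix (red : integralClosure ℤ ℂ →+* F)
    (hZc : Z ≤ Subgroup.center Γ) (hPZ : P ≤ Z) (hP : IsPGroup p P)
    (hPs : ¬ p ∣ P.relIndex Z) {B : (Γ → F) → F} (hB : IsBlock B) {μ : Z →* ℂˣ}
    {n : ℕ} (hμ : ∀ z : Z, (z : Γ) ∈ P → μ z ^ n = 1) {s : ℂ ≃+* ℂ}
    (hs : ∀ ζ : ℂ, ζ ^ Nat.card Γ = 1 → (∃ k : ℕ, ¬ p ∣ k ∧ ζ ^ (k * n) = 1) → s ζ = ζ) :
    ALT p P red B (fun _ χ => LO μ χ) =
      ALT p P red B (fun _ χ => LO μ χ ∧ ∀ x, s (χ x) = χ x) := by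
  by_cases hcc : CC p red B μ
  · have : Fintype {σ : Set (Subgroup Γ) // CH p ⊤ P σ} := Fintype.ofFinite _
    have hPc := hPZ.trans hZc
    have hPn : P.Normal := normal_cen hPc
    have h0 : ALT p P red B (fun _ χ => LO μ χ) = ALT p P red B (fun _ χ => LO (rP hPZ μ) χ) := by
      have h1 := alt_iff red hZc hPZ hP hPs hcc (fun _ _ => True)
      simp only [and_true] at h1
      exact h1
    rw [h0, alt_iff red hZc hPZ hP hPs hcc (fun _ χ => ∀ x, s (χ x) = χ x)]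
    apply card_cancel (Γ := Γ)
    rw [alt_ab red B hPn _ (fun g H H' e he χ h => lo_conj hPc _ g H H' e he χ h),
      alt_ab red B hPn (fun _ χ => LO (rP hPZ μ) χ ∧ ∀ x, s (χ x) = χ x)
        (fun g H H' e he χ h => ⟨lo_conj hPc _ g H H' e he χ h.1, fun x => h.2 (e x)⟩)]
    exact ab_lam_fix red hPc hP (rP hPZ μ) (n := n) (fun z => hμ ⟨z, hPZ z.2⟩ z.2) hs hB
  · have h1 := alt_zero (p := p) (P := P) red hZc hcc (fun _ _ => True)
    have h2 := alt_zero (p := p) (P := P) red hZc hcc (fun _ χ => ∀ x, s (χ x) = χ x)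
    simp only [and_true] at h1
    rw [h1, h2]

/-- **the characters with bounded irrationality** -/
theorem main_rat (red : integralClosure ℤ ℂ →+* F)
    (hZc : Z ≤ Subgroup.center Γ) (hPZ : P ≤ Z) (hP : IsPGroup p P)
    (hPs : ¬ p ∣ P.relIndex Z) {B : (Γ → F) → F} (hB : IsBlock B) {μ : Z →* ℂˣ}
    {b : ℕ} (hpb : p ≠ 2 ∨ 2 ≤ b) (hμ : ∀ z : Z, (z : Γ) ∈ P → μ z ^ p ^ b = 1) :
    ALT p P red B (fun _ χ => LO μ χ) =
      ALT p P red B (fun _ χ => LO μ χ ∧ ∃ k : ℕ, ¬ p ∣ k ∧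
        ∀ x, χ x ∈ IntermediateField.adjoin ℚ {zt (k * p ^ b)}) := by
  obtain ⟨s, hs1, hs2⟩ := exists_gen' (Γ := Γ) hpb
  rw [main_fix red hZc hPZ hP hPs hB hμ hs1]
  unfold ALT
  refine finsum_congr fun c => ?_
  congr 2
  refine nl_congr red B fun χ hχ => ?_
  refine and_congr_right fun _ => ?_
  exact rat_iff hp.out hs1 hs2 hχ

end

end Pool.Agent.Q18.PR
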