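import Pool.Agent.Q18.PR.Dim

/-!
# Eigenvalues and quotients by central `p`-subgroups
-/

open scoped BigOperators Classical

set_option linter.unusedSectionVars false

noncomputable section

namespace Pool.Agent.Q18.PR

open Pool.Agent.Q18.K
open Pool.Agent.Y63.NV (Kop Kfun SA cut VS gk push IsClassFun)
open Pool.Agent.Y63.KR

section

variable {Γ : Type} [Group Γ] [Finite Γ] {p : ℕ} {Z K H : Subgroup Γ}

/-- translations by central elements preserve `SA` -/
theorem sa_mul (hZc : Z ≤ Subgroup.center Γ) (hZH : Z ≤ H) {k : Γ} (hk : k ∈ Z) (x : Γ) :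
    x * k ∈ SA p H Z ↔ x ∈ SA p H Z := by
  have key : ∀ (k : Γ), k ∈ Z → ∀ x, x ∈ SA p H Z → x * k ∈ SA p H Z := by
    rintro k hk x ⟨h1, h2, h3⟩
    refine ⟨H.mul_mem h1 (hZH hk), fun r hr => (Subgroup.mem_center_iff.1 (hZc hr) _).symm, ?_⟩
    have hc := Subgroup.mem_center_iff.1 (hZc hk)
    have h4 : Subgroup.centralizer {x * k} = Subgroup.centralizer {x} := by
      ext g
      rw [Subgroup.mem_centralizer_singleton_iff, Subgroup.mem_centralizer_singleton_iff,
        ← mul_assoc, mul_assoc x k g, ← hc g, ← mul_assoc, mul_left_inj]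
    rw [h4]
    exact h3
  refine ⟨fun h => ?_, key k hk x⟩
  have h1 := key k⁻¹ (Z.inv_mem hk) _ h
  rwa [mul_inv_cancel_right] at h1

theorem sa_conj (hZc : Z ≤ Subgroup.center Γ) {h : Γ} (hh : h ∈ H) (x : Γ) :
    h * x * h⁻¹ ∈ SA p H Z ↔ x ∈ SA p H Z := by
  have key : ∀ (h : Γ), h ∈ H → ∀ x, x ∈ SA p H Z → h * x * h⁻¹ ∈ SA p H Z := by
    rintro h hh x ⟨h1, h2, h3⟩
    refine ⟨H.mul_mem (H.mul_mem hh h1) (H.inv_mem hh),
      fun r hr => (Subgroup.mem_center_iff.1 (hZc hr) _).symm, ?_⟩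
    rw [← h3]
    let e : ↥(H ⊓ Subgroup.centralizer {x}) ≃ ↥(H ⊓ Subgroup.centralizer {h * x * h⁻¹}) :=
      { toFun := fun g => ⟨h * g * h⁻¹, H.mul_mem (H.mul_mem hh g.2.1) (H.inv_mem hh), by
          change h * g * h⁻¹ ∈ Subgroup.centralizer {h * x * h⁻¹}
          have h5 : (g : Γ) ∈ Subgroup.centralizer {x} := g.2.2
          rw [Subgroup.mem_centralizer_singleton_iff] at h5 ⊢
          have h6 : h * g * h⁻¹ * (h * x * h⁻¹) = h * (g * x) * h⁻¹ := by group
          have h7 : h * x * h⁻¹ * (h * g * h⁻¹) = h * (x * g) * h⁻¹ := by group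
          rw [h6, h7, h5]⟩
        invFun := fun g => ⟨h⁻¹ * g * h, H.mul_mem (H.mul_mem (H.inv_mem hh) g.2.1) hh, by
          change h⁻¹ * g * h ∈ Subgroup.centralizer {x}
          have h5 : (g : Γ) ∈ Subgroup.centralizer {h * x * h⁻¹} := g.2.2
          rw [Subgroup.mem_centralizer_singleton_iff] at h5 ⊢
          have h6 : h⁻¹ * g * h * x = h⁻¹ * (g * (h * x * h⁻¹)) * h := by group
          have h7 : x * (h⁻¹ * g * h) = h⁻¹ * ((h * x * h⁻¹) * g) * h := by group
          rw [h6, h7, h5]⟩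
        left_inv := fun g => Subtype.ext (by
          change h⁻¹ * (h * g * h⁻¹) * h = g
          group)
        right_inv := fun g => Subtype.ext (by
          change h * (h⁻¹ * g * h) * h⁻¹ = g
          group) }
    exact (congrArg (fun n => n.factorization p) (Nat.card_congr e)).symm
  refine ⟨fun h1 => ?_, key h hh x⟩
  have h2 := key h⁻¹ (H.inv_mem hh) _ h1
  have h3 : h⁻¹ * (h * x * h⁻¹) * h⁻¹⁻¹ = x := by group
  rwa [h3] at h2

variable {F : Type} [Field F]

/-- inflation of functions -/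
def infl (F : Type) [Field F] (K : Subgroup Γ) [K.Normal] : (Γ ⧸ K → F) →ₗ[F] (Γ → F) where
  toFun f x := f (x : Γ ⧸ K)
  map_add' _ _ := rfl
  map_smul' _ _ := rfl

theorem infl_apply [K.Normal] (f : Γ ⧸ K → F) (x : Γ) : infl F K f x = f (x : Γ ⧸ K) := rfl

/-- sums over the group and sums over the quotient -/
theorem sum_push [hKn : K.Normal] (z : Γ → F) (f : Γ ⧸ K → F) :
    ∑ᶠ g : Γ, z g * f (g : Γ ⧸ K) = ∑ᶠ y : Γ ⧸ K, push K z y * f y := by
  have : Fintype Γ := Fintype.ofFinite Γ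
  have : Fintype (Γ ⧸ K) := Fintype.ofFinite _
  rw [finsum_eq_sum_of_fintype, finsum_eq_sum_of_fintype]
  unfold push
  have h1 : ∀ y : Γ ⧸ K, (∑ᶠ g : Γ, if (g : Γ ⧸ K) = y then z g else 0) * f y =
      ∑ g : Γ, if (g : Γ ⧸ K) = y then z g * f (g : Γ ⧸ K) else 0 := by
    intro y
    rw [finsum_eq_sum_of_fintype, Finset.sum_mul]
    refine Finset.sum_congr rfl fun g _ => ?_
    by_cases h : (g : Γ ⧸ K) = y
    · rw [if_pos h, if_pos h, h]
    · rw [if_neg h, if_neg h, zero_mul]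
  rw [Finset.sum_congr rfl fun y _ => h1 y, Finset.sum_comm]
  refine Finset.sum_congr rfl fun g _ => ?_
  rw [Finset.sum_ite_eq Finset.univ, if_pos (Finset.mem_univ _)]

theorem push_conj [hKn : K.Normal] {z : Γ → F} (hz : ∀ h ∈ H, ∀ x, z (h * x * h⁻¹) = z x) :
    ∀ h ∈ H.map (QuotientGroup.mk' K), ∀ x, push K z (h * x * h⁻¹) = push K z x := by
  have : Fintype Γ := Fintype.ofFinite Γ
  rintro _ ⟨h, hh, rfl⟩ x
  unfold push
  rw [finsum_eq_sum_of_fintype, finsum_eq_sum_of_fintype]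
  refine (Fintype.sum_equiv (MulAut.conj h).toEquiv _ _ fun g => ?_).symm
  have e1 : (MulAut.conj h).toEquiv g = h * g * h⁻¹ := rfl
  rw [e1, hz h hh]
  refine if_congr ?_ rfl rfl
  change (g : Γ ⧸ K) = x ↔ ((h * g * h⁻¹ : Γ) : Γ ⧸ K) = (h : Γ ⧸ K) * x * (h : Γ ⧸ K)⁻¹
  rw [QuotientGroup.mk_mul, QuotientGroup.mk_mul, QuotientGroup.mk_inv, mul_left_inj,
    mul_right_inj]

theorem push_cut [hKn : K.Normal] (hKH : K ≤ H) (z : Γ → F) :
    push K (cut z H) = cut (push K z) (H.map (QuotientGroup.mk' K)) := by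
  have : Fintype Γ := Fintype.ofFinite Γ
  have hmemH : ∀ x : Γ, (x : Γ ⧸ K) ∈ H.map (QuotientGroup.mk' K) ↔ x ∈ H := by
    intro x
    constructor
    · rintro ⟨y, hy, hxy⟩
      have h1 : y⁻¹ * x ∈ K := QuotientGroup.eq.1 hxy
      have h2 := H.mul_mem hy (hKH h1)
      rwa [mul_inv_cancel_left] at h2
    · exact fun h => ⟨x, h, rfl⟩
  funext y
  unfold push cut
  by_cases hy : y ∈ H.map (QuotientGroup.mk' K)
  · rw [if_pos hy]
    refine finsum_congr fun g => ?_
    by_cases hg : (g : Γ ⧸ K) = y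
    · rw [if_pos hg, if_pos hg, if_pos ((hmemH g).1 (hg ▸ hy))]
    · rw [if_neg hg, if_neg hg]
  · rw [if_neg hy]
    refine finsum_eq_zero_of_forall_eq_zero fun g => ?_
    by_cases hg : (g : Γ ⧸ K) = y
    · rw [if_pos hg, if_neg (fun h => hy (hg ▸ (hmemH g).2 h))]
    · rw [if_neg hg]

/-- **eigenvalues and quotients** -/
theorem gk_quot [hp : Fact p.Prime] [IsAlgClosed F] [CharP F p] [hKn : K.Normal]
    (hZc : Z ≤ Subgroup.center Γ) (hZ : IsPGroup p Z) (hKZ : K ≤ Z) (hZH : Z ≤ H)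
    {z : Γ → F} (hz : ∀ h ∈ H, ∀ x, z (h * x * h⁻¹) = z x) (hsz : ∀ x, x ∉ H → z x = 0) (c : F) :
    gk z (SA p H Z) H c = Nat.card K *
      gk (push K z) (SA p (H.map (QuotientGroup.mk' K)) (Z.map (QuotientGroup.mk' K)))
        (H.map (QuotientGroup.mk' K)) c := by
  have hKH := hKZ.trans hZH
  have hKc := hKZ.trans hZc
  have hZc' : Z.map (QuotientGroup.mk' K) ≤ Subgroup.center (Γ ⧸ K) := by
    rintro _ ⟨z, hz, rfl⟩
    rw [Subgroup.mem_center_iff]
    intro g
    obtain ⟨g, rfl⟩ := QuotientGroup.mk_surjective g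
    have h1 := Subgroup.mem_center_iff.1 (hZc hz) g
    change ((g : Γ) : Γ ⧸ K) * (z : Γ ⧸ K) = z * g
    rw [← QuotientGroup.mk_mul, ← QuotientGroup.mk_mul, h1]
  have hSq := sa_quot (p := p) (K := K) hZc hZ hKZ hZH
  have hfin : FiniteDimensional F (Γ → F) := by
    have : Fintype Γ := Fintype.ofFinite Γ
    infer_instance
  -- the dimensions
  have h1 := free_dim (F := F) (K := K) (H := H) (S := SA p H Z) hKc
    (fun h hh x => sa_conj hZc hh x) (fun k hk x => sa_mul hZc hZH (hKZ hk) x)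
    (fun x hx h hh k hk he => free_of hZc hZ (sa_cen hZc hZ hZH hx) (hKZ hk) he)
  -- the operator
  have hT : ∀ v ∈ VS (F := F) (SA p H Z) H, Kop z (SA p H Z) v ∈ VS (F := F) (SA p H Z) H :=
    fun v hv => kop_mem (A := PAI Γ) (adm_I H) (z := z) (fun m hm x => hz m hm x) hsz
      (fun x hx => hx.1) (fun m hm x => sa_conj hZc hm x) (S' := SA p H Z) hv
  have hρ : ∀ g : K, ∀ v ∈ VS (F := F) (SA p H Z) H, tr F K g v ∈ VS (F := F) (SA p H Z) H := by
    rintro g v ⟨hv1, hv2⟩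
    refine ⟨fun x hx => ?_, fun h hh x => ?_⟩
    · rw [tr_apply]
      exact hv1 _ (fun h => hx ((sa_mul hZc hZH (hKZ g.2) x).1 h))
    · rw [tr_apply, tr_apply, ← hv2 h hh (x * g)]
      congr 1
      have hc := Subgroup.mem_center_iff.1 (hKc g.2) h⁻¹
      rw [mul_assoc (h * x), hc]
      group
  have hcomm : ∀ g : K, ∀ v ∈ VS (F := F) (SA p H Z) H,
      tr F K g (Kop z (SA p H Z) v) = Kop z (SA p H Z) (tr F K g v) := by
    intro g v _
    funext x
    rw [tr_apply, kop_apply, kop_apply]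
    refine if_congr (sa_mul hZc hZH (hKZ g.2) x) (finsum_congr fun y => ?_) rfl
    rw [tr_apply, mul_assoc]
  have h2 := Pool.Agent.Q177.PR.eig p F (Γ → F) K (tr F K) (VS (F := F) (SA p H Z) H)
    (Kop z (SA p H Z)) (hZ.to_le hKZ) hT hρ hcomm h1 c
  -- the inflation
  have h3 := finrank_eq2 (F := F)
    (Kop (push K z) (SA p (H.map (QuotientGroup.mk' K)) (Z.map (QuotientGroup.mk' K))))
    (Kop z (SA p H Z)) (infl F K)
    (VS (F := F) (SA p (H.map (QuotientGroup.mk' K)) (Z.map (QuotientGroup.mk' K)))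
      (H.map (QuotientGroup.mk' K)))
    (VS (F := F) (SA p H Z) H ⊓ (tr F K).invariants) ?_ ?_ ?_ ?_ ?_ c
  · unfold gk
    rw [h2, h3]
  · intro v hv
    refine kop_mem (A := PAI (Γ ⧸ K)) (adm_I (H.map (QuotientGroup.mk' K))) (z := push K z)
      (fun m hm x => push_conj hz m hm x) ?_ (fun x hx => hx.1)
      (fun m hm x => sa_conj hZc' hm x) (S' := SA p (H.map (QuotientGroup.mk' K))
        (Z.map (QuotientGroup.mk' K))) hv
    intro x hx
    have h4 : z = cut z H := by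
      funext y
      unfold cut
      by_cases hy : y ∈ H
      · rw [if_pos hy]
      · rw [if_neg hy, hsz y hy]
    rw [h4, push_cut hKH]
    unfold cut
    rw [if_neg hx]
  · rintro v ⟨hv1, hv2⟩
    refine Submodule.mem_inf.2 ⟨⟨fun x hx => ?_, fun h hh x => ?_⟩, ?_⟩
    · rw [infl_apply]
      exact hv1 _ (fun h => hx ((hSq x).1 h))
    · rw [infl_apply, infl_apply]
      exact hv2 (h : Γ ⧸ K) ⟨h, hh, rfl⟩ (x : Γ ⧸ K)
    · rw [mem_inv]
      intro k x
      rw [infl_apply, infl_apply, QuotientGroup.mk_mul, (QuotientGroup.eq_one_iff (k : Γ)).2 k.2,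
        mul_one]
  · intro w hw
    obtain ⟨⟨hw1, hw2⟩, hw3⟩ := Submodule.mem_inf.1 hw
    rw [mem_inv] at hw3
    have hw4 : ∀ x y : Γ, (x : Γ ⧸ K) = y → w x = w y := by
      intro x y hxy
      have h4 : x⁻¹ * y ∈ K := QuotientGroup.eq.1 hxy
      have h5 := hw3 ⟨_, h4⟩ x
      rw [← h5]
      congr 1
      change x * (x⁻¹ * y) = y
      group
    have hw5 : infl F K (fun y => w y.out) = w := by
      funext x
      rw [infl_apply]
      exact hw4 _ _ (QuotientGroup.out_eq' _)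
    refine ⟨fun y => w y.out, ⟨fun y hy => ?_, ?_⟩, hw5⟩
    · refine hw1 _ (fun h => hy ?_)
      have h6 := (hSq y.out).2 h
      rwa [QuotientGroup.out_eq'] at h6
    · rintro _ ⟨h, hh, rfl⟩ y
      change w _ = w _
      rw [← hw2 h hh y.out]
      apply hw4
      rw [QuotientGroup.out_eq', QuotientGroup.mk_mul, QuotientGroup.mk_mul,
        QuotientGroup.mk_inv, QuotientGroup.out_eq']
      rfl
  · intro v _ h0
    funext y
    obtain ⟨x, rfl⟩ := QuotientGroup.mk_surjective y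
    exact congrFun h0 x
  · intro v _
    funext x
    rw [infl_apply, kop_apply, kop_apply]
    refine if_congr (hSq x) ?_ rfl
    have h4 := sum_push (K := K) z (fun y : Γ ⧸ K => v (y * (x : Γ ⧸ K)))
    rw [← h4]
    rfl

end

end Pool.Agent.Q18.PR
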