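import Pool.Agent.Q18.PR.Sm
import Pool.Agent.Q18.K.Sep
import Pool.Agent.Q18.K.Prat
import Pool.Agent.Y210.NV2.NQ

/-!
# Inflation and the power maps
-/

open scoped BigOperators Classical

set_option linter.unusedSectionVars false

noncomputable section

namespace Pool.Agent.Q18.PR

open Pool.Agent.Q18.K
open Pool.Agent.Helper884.IC (IsIrrChar irr_finite)
open Pool.Agent.Y63.NV (Kop Kfun SA cut VS gk push IsClassFun Knum centralValue redC)
open Pool.Agent.Y63.KR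

section

variable {Γ : Type} [Group Γ] [Finite Γ] {p : ℕ} {Z K H : Subgroup Γ}

/-- the projection of a subgroup -/
def pr (K H : Subgroup Γ) [K.Normal] : H →* H.map (QuotientGroup.mk' K) :=
  (QuotientGroup.mk' K).subgroupMap H

theorem pr_surj [K.Normal] : Function.Surjective (pr K H) :=
  (QuotientGroup.mk' K).subgroupMap_surjective H

theorem pr_apply [K.Normal] (x : H) : ((pr K H x : H.map (QuotientGroup.mk' K)) : Γ ⧸ K) =
    ((x : Γ) : Γ ⧸ K) := rfl

theorem pr_ker [K.Normal] (x : H) : x ∈ (pr K H).ker ↔ (x : Γ) ∈ K := by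
  rw [MonoidHom.mem_ker, Subtype.ext_iff, pr_apply]
  exact QuotientGroup.eq_one_iff _

/-- the functions which are invariant under translations by `K` -/
def KI (K : Subgroup Γ) {H : Subgroup Γ} (χ : H → ℂ) : Prop :=
  ∀ k ∈ K, ∀ x y : H, (y : Γ) = k * x → χ y = χ x

/-- characters of the quotient -/
theorem inf_card [hKn : K.Normal] (P : (H → ℂ) → Prop) :
    Nat.card {χ : H → ℂ // IsIrrChar χ ∧ KI K χ ∧ P χ} =
      Nat.card {χ' : H.map (QuotientGroup.mk' K) → ℂ // IsIrrChar χ' ∧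
        P (fun x => χ' (pr K H x))} := by
  refine (Nat.card_congr (Equiv.ofBijective
    (fun χ' : {χ' : H.map (QuotientGroup.mk' K) → ℂ // IsIrrChar χ' ∧
        P (fun x => χ' (pr K H x))} =>
      (⟨fun x => χ'.1 (pr K H x), Pool.Agent.Y210.NV3.irr_comp (pr K H) pr_surj χ'.2.1,
        fun k hk x y hxy => ?_, χ'.2.2⟩ : {χ : H → ℂ // IsIrrChar χ ∧ KI K χ ∧ P χ})) ⟨?_, ?_⟩)).symm
  · change χ'.1 (pr K H y) = χ'.1 (pr K H x)
    refine congrArg χ'.1 (Subtype.ext ?_)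
    rw [pr_apply, pr_apply, hxy, QuotientGroup.mk_mul, (QuotientGroup.eq_one_iff k).2 hk, one_mul]
  · intro a b hab
    apply Subtype.ext
    funext y
    obtain ⟨x, rfl⟩ := pr_surj (K := K) y
    exact congrFun (congrArg Subtype.val hab) x
  · rintro ⟨χ, h1, h2, h3⟩
    obtain ⟨χ', h4, h5⟩ := Pool.Agent.Y210.NV3.irr_desc (pr K H) pr_surj h1 (fun q hq x =>
      h2 q ((pr_ker q).1 hq) x (q * x) rfl)
    subst h5
    exact ⟨⟨χ', h4, h3⟩, rfl⟩

variable {F : Type} [Field F]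

theorem cv_inf [hKn : K.Normal] (hKH : K ≤ H) (red : integralClosure ℤ ℂ →+* F)
    {χ' : H.map (QuotientGroup.mk' K) → ℂ} (h : IsIrrChar χ') {z : Γ → F} (hz : IsClassFun z) :
    centralValue red (fun x => χ' (pr K H x)) (fun x : H => z x) =
      centralValue red χ' (fun y => push K z y) := by
  have h1 := Pool.Agent.Y930.NV.inf F red H (H.map (QuotientGroup.mk' K)) (pr K H) χ'
    (fun x : H => z x) pr_surj h (fun g x => hz g x)
  rw [h1]
  congr 1
  funext y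
  have : Fintype Γ := Fintype.ofFinite Γ
  have : Fintype H := Fintype.ofFinite H
  unfold push
  rw [finsum_eq_sum_of_fintype, finsum_eq_sum_of_fintype]
  have key : (∑ x ∈ Finset.univ.filter (fun x : H => pr K H x = y), z x) =
      ∑ x ∈ Finset.univ.filter (fun x : Γ => (x : Γ ⧸ K) = y), z x := by
    refine Finset.sum_bij (fun x _ => (x : Γ)) ?_ ?_ ?_ ?_
    · intro x hx
      rw [Finset.mem_filter] at hx ⊢
      exact ⟨Finset.mem_univ _, congrArg Subtype.val hx.2⟩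
    · intro a _ b _ hab
      exact Subtype.ext hab
    · intro x hx
      rw [Finset.mem_filter] at hx
      obtain ⟨w, hw, hwy⟩ := y.2
      have h2 : w⁻¹ * x ∈ K := QuotientGroup.eq.1 (by
        rw [hx.2, ← hwy]
        rfl)
      have h3 := H.mul_mem hw (hKH h2)
      rw [mul_inv_cancel_left] at h3
      refine ⟨⟨x, h3⟩, ?_, rfl⟩
      rw [Finset.mem_filter]
      exact ⟨Finset.mem_univ _, Subtype.ext hx.2⟩
    · intro _ _
      rfl
  rw [Finset.sum_filter, Finset.sum_filter] at key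
  convert key

/-- the numbers of the characters of the quotient -/
theorem knum_inf [hKn : K.Normal] (hKH : K ≤ H) (red : integralClosure ℤ ℂ →+* F) {z : Γ → F}
    (hz : IsClassFun z) (c : F) :
    Knum red (fun x : H.map (QuotientGroup.mk' K) => push K z x) c =
      Nat.card {χ : H → ℂ // IsIrrChar χ ∧ KI K χ ∧ centralValue red χ (fun x => z x) = c} := by
  rw [inf_card (K := K) (fun χ : H → ℂ => centralValue red χ (fun x => z x) = c)]
  unfold Knum
  refine Nat.card_congr (Equiv.subtypeEquivRight fun χ' => ?_)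
  refine and_congr_right fun h => ?_
  rw [cv_inf hKH red h hz]

/-- the number of the characters of the quotient fixed by an automorphism -/
theorem fx_inf [hKn : K.Normal] (hKH : K ≤ H) (red : integralClosure ℤ ℂ →+* F) {z : Γ → F}
    (hz : IsClassFun z) (c : F) (s : ℂ ≃+* ℂ) :
    Fx red (H.map (QuotientGroup.mk' K)) (uσ (Γ ⧸ K) s) (push K z) c =
      Nat.card {χ : H → ℂ // IsIrrChar χ ∧ KI K χ ∧ (∀ x, s (χ x) = χ x) ∧
        centralValue red χ (fun x => z x) = c} := by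
  have : Fintype ↥(H.map (QuotientGroup.mk' K)) := Fintype.ofFinite _
  rw [inf_card (K := K) (fun χ : H → ℂ => (∀ x, s (χ x) = χ x) ∧
    centralValue red χ (fun x => z x) = c)]
  unfold Fx
  refine Nat.card_congr (Equiv.subtypeEquivRight fun χ' => ?_)
  refine and_congr_right fun h => ?_
  rw [cv_inf hKH red h hz]
  refine and_congr_left fun _ => ?_
  have h5 : ∀ x, χ' (x ^ ex (uσ (Γ ⧸ K) s)) = s (χ' x) := fun x =>
    char_pow_gal s Nat.card_pos (fun ζ hζ => uσ_spec s ζ hζ) h (hxn _ x)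
  constructor
  · intro h6 x
    rw [← h5, h6]
  · intro h6 y
    obtain ⟨x, rfl⟩ := pr_surj (K := K) y
    rw [h5]
    exact h6 x

theorem fx_one_inf [hKn : K.Normal] (hKH : K ≤ H) (red : integralClosure ℤ ℂ →+* F) {z : Γ → F}
    (hz : IsClassFun z) (c : F) :
    Fx red (H.map (QuotientGroup.mk' K)) (1 : (ZMod (Nat.card (Γ ⧸ K)))ˣ) (push K z) c =
      Nat.card {χ : H → ℂ // IsIrrChar χ ∧ KI K χ ∧
        centralValue red χ (fun x => z x) = c} := by
  have : Fintype ↥(H.map (QuotientGroup.mk' K)) := Fintype.ofFinite _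
  rw [inf_card (K := K) (fun χ : H → ℂ => centralValue red χ (fun x => z x) = c)]
  unfold Fx
  refine Nat.card_congr (Equiv.subtypeEquivRight fun χ' => ?_)
  refine and_congr_right fun h => ?_
  rw [cv_inf hKH red h hz]
  refine ⟨fun h => h.2, fun h => ⟨fun x => ?_, h⟩⟩
  rw [ex_one (hxn _ x)]

/-- the power maps of the quotient -/
theorem ex_quot [hKn : K.Normal] (s : ℂ ≃+* ℂ) (x : Γ ⧸ K) :
    x ^ ex (uσ (Γ ⧸ K) s) = x ^ ex (uσ Γ s) := by
  have hd : Nat.card (Γ ⧸ K) ∣ Nat.card Γ := by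
    rw [Subgroup.card_eq_card_quotient_mul_card_subgroup K]
    exact dvd_mul_right _ _
  have h0 : 0 < Nat.card (Γ ⧸ K) := Nat.card_pos
  have h1 := (zt_prim h0).pow_eq_one
  have h2 : zt (Nat.card (Γ ⧸ K)) ^ Nat.card Γ = 1 := by
    obtain ⟨d, hd⟩ := hd
    rw [hd, pow_mul, h1, one_pow]
  have h3 := uσ_spec (Γ := Γ) s _ h2
  have h4 := uσ_spec (Γ := Γ ⧸ K) s _ h1
  exact pow_eq_pow_of_modEq (modEq_of_pow h0 (h4.symm.trans h3)) (xn x)

theorem push_pow [hKn : K.Normal] (s : ℂ ≃+* ℂ) {z : Γ → F}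
    (hz : ∀ x : Γ, z (x ^ ex (uσ Γ s)) = z x) (x : Γ ⧸ K) :
    push K z (x ^ ex (uσ (Γ ⧸ K) s)) = push K z x := by
  have : Fintype Γ := Fintype.ofFinite Γ
  have hJ : ∀ x : Γ ⧸ K, x ^ Nat.card Γ = 1 := by
    intro x
    obtain ⟨x, rfl⟩ := QuotientGroup.mk_surjective x
    rw [← QuotientGroup.mk_pow, xn, QuotientGroup.mk_one]
  rw [ex_quot]
  unfold push
  rw [finsum_eq_sum_of_fintype, finsum_eq_sum_of_fintype]
  refine (Fintype.sum_equiv (pw (Γ := Γ) (J := Γ) xn (uσ Γ s)) _ _ fun g => ?_).symm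
  rw [pw_apply, hz]
  refine if_congr ?_ rfl rfl
  rw [QuotientGroup.mk_pow]
  constructor
  · rintro rfl
    rfl
  · intro h
    exact (pw (Γ := Γ) (J := Γ ⧸ K) hJ (uσ Γ s)).injective h

/-- invariance under the powers of a power map -/
theorem inv_zp {A : Type} [Group A] [Finite A] {f : A → F} {u : (ZMod (Nat.card A))ˣ}
    (h : ∀ x : A, f (x ^ ex u) = f x) {w : (ZMod (Nat.card A))ˣ}
    (hw : w ∈ Subgroup.zpowers u) : ∀ x : A, f (x ^ ex w) = f x := by
  have : Finite (ZMod (Nat.card A))ˣ := by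
    have := ne0 (Γ := A)
    infer_instance
  rw [← mem_powers_iff_mem_zpowers] at hw
  obtain ⟨k, rfl⟩ := hw
  induction k with
  | zero =>
    intro x
    change f (x ^ ex (u ^ 0)) = f x
    rw [pow_zero, ex_one (xn x)]
  | succ k ih =>
    intro x
    change f (x ^ ex (u ^ (k + 1))) = f x
    rw [pow_succ, ex_mul (xn x), h]
    exact ih x

/-- **the characters fixed by an automorphism** -/
theorem fix_main [Fact p.Prime] [IsAlgClosed F] [CharP F p] [hKn : K.Normal]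
    (red : integralClosure ℤ ℂ →+* F)
    (hZc : Z ≤ Subgroup.center Γ) (hZ : IsPGroup p Z) (hKZ : K ≤ Z) {s : ℂ ≃+* ℂ}
    (hs : ∀ ζ : ℂ, ζ ^ Nat.card Γ = 1 →
      (∃ k : ℕ, ¬ p ∣ k ∧ ζ ^ (k * Monoid.exponent (Z.map (QuotientGroup.mk' K))) = 1) → s ζ = ζ)
    {z : Γ → F} (hz : IsClassFun z) (hz' : ∀ x : Γ, z (x ^ ex (uσ Γ s)) = z x) (c : F)
    [Fintype {σ : Set (Subgroup Γ) // CH p ⊤ Z σ}] :
    ∑ σ : {σ : Set (Subgroup Γ) // CH p ⊤ Z σ}, (-1) ^ σ.1.ncard *
      ((Nat.card (chainStabilizer σ.1) : ℤ) *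
        (Nat.card {χ : chainStabilizer σ.1 → ℂ // IsIrrChar χ ∧ KI K χ ∧
          centralValue red χ (fun x => z x) = c} : ℤ)) =
    ∑ σ : {σ : Set (Subgroup Γ) // CH p ⊤ Z σ}, (-1) ^ σ.1.ncard *
      ((Nat.card (chainStabilizer σ.1) : ℤ) *
        (Nat.card {χ : chainStabilizer σ.1 → ℂ // IsIrrChar χ ∧ KI K χ ∧
          (∀ x, s (χ x) = χ x) ∧ centralValue red χ (fun x => z x) = c} : ℤ)) := by
  have : Fintype {τ : Set (Subgroup (Γ ⧸ K)) // CH p ⊤ (Z.map (QuotientGroup.mk' K)) τ} :=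
    Fintype.ofFinite _
  have hZn : (Z.map (QuotientGroup.mk' K)).Normal :=
    Subgroup.Normal.map (normal_cen hZc) _ (QuotientGroup.mk'_surjective K)
  set V := GUσ (Γ ⧸ K) s with hV
  have hd : Nat.card (Γ ⧸ K) ∣ Nat.card Γ := by
    rw [Subgroup.card_eq_card_quotient_mul_card_subgroup K]
    exact dvd_mul_right _ _
  have hVx : ∀ (u : V.U) (x : Γ ⧸ K),
      (∃ k : ℕ, ¬ p ∣ k ∧ x ^ k ∈ Z.map (QuotientGroup.mk' K)) →
      x ^ ex (u : (ZMod (Nat.card (Γ ⧸ K)))ˣ) = x := by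
    rintro u x ⟨k, hk, hx⟩
    refine pow_fix (N := k * Monoid.exponent (Z.map (QuotientGroup.mk' K))) ?_
      (fun ζ hζ' hζ => hs ζ ?_ ⟨k, hk, hζ⟩) u
    · rw [pow_mul]
      have h1 := Monoid.pow_exponent_eq_one (⟨x ^ k, hx⟩ : Z.map (QuotientGroup.mk' K))
      exact congrArg Subtype.val h1
    · obtain ⟨d, hd⟩ := hd
      rw [hd, pow_mul, hζ', one_pow]
  have hpz : ∀ g x : Γ ⧸ K, push K z (g * x * g⁻¹) = push K z x := by
    intro g x
    obtain ⟨g', rfl⟩ := QuotientGroup.mk_surjective g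
    exact push_conj (H := ⊤) (K := K) (z := z) (fun h _ x => hz h x) (g' : Γ ⧸ K)
      ⟨g', Subgroup.mem_top _, rfl⟩ x
  let u₀ : V.U := ⟨uσ (Γ ⧸ K) s, Subgroup.mem_zpowers _⟩
  have h1 := pow_sum (V := V) (p := p) (Z := Z.map (QuotientGroup.mk' K)) red (hZ.map _) hVx
    (z := push K z) hpz (fun u x => inv_zp (push_pow s hz') u.2 x) c u₀
  obtain ⟨e, he⟩ := Pool.Agent.Q177.PR.chq p Γ Z K (normal_cen hZc) hZ hKZ
  rw [← Equiv.sum_comp e] at h1
  rw [← sub_eq_zero, ← Finset.sum_sub_distrib]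
  have h2 : ∀ σ : {σ : Set (Subgroup Γ) // CH p ⊤ Z σ},
      ((-1) ^ σ.1.ncard * ((Nat.card (chainStabilizer σ.1) : ℤ) *
        (Nat.card {χ : chainStabilizer σ.1 → ℂ // IsIrrChar χ ∧ KI K χ ∧
          centralValue red χ (fun x => z x) = c} : ℤ)) -
      (-1) ^ σ.1.ncard * ((Nat.card (chainStabilizer σ.1) : ℤ) *
        (Nat.card {χ : chainStabilizer σ.1 → ℂ // IsIrrChar χ ∧ KI K χ ∧
          (∀ x, s (χ x) = χ x) ∧ centralValue red χ (fun x => z x) = c} : ℤ)) : ℤ) =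
      -(Nat.card K : ℤ) * ((-1) ^ (e σ).1.ncard * ((Nat.card (chainStabilizer (e σ).1) : ℤ) *
        ((Fx red (chainStabilizer (e σ).1) (u₀ : (ZMod (Nat.card (Γ ⧸ K)))ˣ) (push K z) c : ℤ) -
          Fx red (chainStabilizer (e σ).1) 1 (push K z) c))) := by
    intro σ
    obtain ⟨e1, e2, e3⟩ := he σ
    rw [e1, e2]
    change _ = -(Nat.card K : ℤ) * ((-1) ^ σ.1.ncard *
      ((Nat.card ((chainStabilizer σ.1).map (QuotientGroup.mk' K)) : ℤ) *
        ((Fx red ((chainStabilizer σ.1).map (QuotientGroup.mk' K)) (uσ (Γ ⧸ K) s)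
          (push K z) c : ℤ) -
          Fx red ((chainStabilizer σ.1).map (QuotientGroup.mk' K)) 1 (push K z) c)))
    rw [fx_inf e3 red hz c s, fx_one_inf e3 red hz c, ← card_map_mk (K := K) e3]
    push_cast
    ring
  rw [Finset.sum_congr rfl fun σ _ => h2 σ, ← Finset.mul_sum, h1, mul_zero]

/-- **the characters with `K` in the kernel** -/
theorem all_main [Fact p.Prime] [IsAlgClosed F] [CharP F p] [hKn : K.Normal]
    (red : integralClosure ℤ ℂ →+* F)
    (hZc : Z ≤ Subgroup.center Γ) (hZ : IsPGroup p Z) (hKZ : K ≤ Z)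
    {z : Γ → F} (hz : IsClassFun z) (c : F)
    [Fintype {σ : Set (Subgroup Γ) // CH p ⊤ Z σ}] :
    ∑ σ : {σ : Set (Subgroup Γ) // CH p ⊤ Z σ}, (-1) ^ σ.1.ncard *
      ((Nat.card (chainStabilizer σ.1) : ℤ) *
        (Nat.card {χ : chainStabilizer σ.1 → ℂ // IsIrrChar χ ∧
          centralValue red χ (fun x => z x) = c} : ℤ)) =
    (Nat.card K : ℤ) * ∑ σ : {σ : Set (Subgroup Γ) // CH p ⊤ Z σ}, (-1) ^ σ.1.ncard *
      ((Nat.card (chainStabilizer σ.1) : ℤ) *
        (Nat.card {χ : chainStabilizer σ.1 → ℂ // IsIrrChar χ ∧ KI K χ ∧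
          centralValue red χ (fun x => z x) = c} : ℤ)) := by
  have : Fintype {τ : Set (Subgroup (Γ ⧸ K)) // CH p ⊤ (Z.map (QuotientGroup.mk' K)) τ} :=
    Fintype.ofFinite _
  have h1 := quot_main (K := K) red hZc hZ hKZ hz c
  refine Eq.trans h1 ?_
  obtain ⟨e, he⟩ := Pool.Agent.Q177.PR.chq p Γ Z K (normal_cen hZc) hZ hKZ
  congr 1
  rw [← Equiv.sum_comp e, Finset.mul_sum]
  refine Finset.sum_congr rfl fun σ _ => ?_
  obtain ⟨e1, e2, e3⟩ := he σ
  rw [e1, e2, knum_inf e3 red hz c, ← card_map_mk (K := K) e3]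
  push_cast
  ring

end

end Pool.Agent.Q18.PR
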