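import Pool.Agent.Q18.PR.Cc

/-!
# Alternating sums over the characters of a central `p`-subgroup
-/

open scoped BigOperators Classical

set_option linter.unusedSectionVars false

noncomputable section

namespace Pool.Agent.Q18.PR

open Pool.Agent.Q18.K
open Pool.Agent.Helper884.IC (IsIrrChar irr_finite)
open Pool.Agent.Y63.NV (IsClassFun IsBlock Knum centralValue redC)
open Pool.Agent.Y63.KR

section

variable {Γ : Type} [Group Γ] [Finite Γ] {p : ℕ} {Z K H : Subgroup Γ} {F : Type} [Field F]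

/-- the number of the irreducible characters in `B` with a given property -/
def NL (red : integralClosure ℤ ℂ →+* F) (B : (Γ → F) → F)
    (Q : ∀ H : Subgroup Γ, (H → ℂ) → Prop) (H : Subgroup Γ) : ℕ :=
  Nat.card {χ : H → ℂ // IsIrrChar χ ∧ Q H χ ∧
    ∀ f : Γ → F, IsClassFun f → centralValue red χ (fun x => f x) = B f}

/-- the alternating sum -/
def AB (p : ℕ) (Z : Subgroup Γ) (red : integralClosure ℤ ℂ →+* F) (B : (Γ → F) → F)
    [Fintype {σ : Set (Subgroup Γ) // CH p ⊤ Z σ}] (Q : ∀ H : Subgroup Γ, (H → ℂ) → Prop) : ℤ :=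
  ∑ σ : {σ : Set (Subgroup Γ) // CH p ⊤ Z σ}, (-1) ^ σ.1.ncard *
    ((Nat.card (chainStabilizer σ.1) : ℤ) * (NL red B Q (chainStabilizer σ.1) : ℤ))

theorem fin_irr (H : Subgroup Γ) (P : (H → ℂ) → Prop) :
    Finite {χ : H → ℂ // IsIrrChar χ ∧ P χ} := by
  have : Fintype H := Fintype.ofFinite H
  have h1 : {χ : H → ℂ | IsIrrChar χ}.Finite := irr_finite
  exact (h1.subset (t := {χ : H → ℂ | IsIrrChar χ ∧ P χ}) fun χ h => h.1).to_subtype

theorem nl_sum (red : integralClosure ℤ ℂ →+* F) (B : (Γ → F) → F)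
    {Q : ∀ H : Subgroup Γ, (H → ℂ) → Prop} {I : Type} [Fintype I]
    {Qi : I → ∀ H : Subgroup Γ, (H → ℂ) → Prop}
    (h1 : ∀ χ : H → ℂ, IsIrrChar χ → (Q H χ ↔ ∃ i, Qi i H χ))
    (h2 : ∀ χ : H → ℂ, IsIrrChar χ → ∀ i j, Qi i H χ → Qi j H χ → i = j) :
    NL red B Q H = ∑ i, NL red B (Qi i) H := by
  unfold NL
  have hfin : ∀ i, Finite {χ : H → ℂ // IsIrrChar χ ∧ Qi i H χ ∧
    ∀ f : Γ → F, IsClassFun f → centralValue red χ (fun x => f x) = B f} := fun i =>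
      fin_irr H _
  rw [← Nat.card_sigma]
  refine (Nat.card_congr (Equiv.ofBijective
    (fun χ : (Σ i, {χ : H → ℂ // IsIrrChar χ ∧ Qi i H χ ∧
      ∀ f : Γ → F, IsClassFun f → centralValue red χ (fun x => f x) = B f}) =>
      (⟨χ.2.1, χ.2.2.1, (h1 χ.2.1 χ.2.2.1).2 ⟨χ.1, χ.2.2.2.1⟩, χ.2.2.2.2⟩ :
        {χ : H → ℂ // IsIrrChar χ ∧ Q H χ ∧
      ∀ f : Γ → F, IsClassFun f → centralValue red χ (fun x => f x) = B f})) ⟨?_, ?_⟩)).symm
  · rintro ⟨i, χ, hχ⟩ ⟨j, ψ, hψ⟩ h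
    have h3 : χ = ψ := congrArg Subtype.val h
    subst h3
    have h4 : i = j := h2 χ hχ.1 i j hχ.2.1 hψ.2.1
    subst h4
    rfl
  · rintro ⟨χ, hχ, hQ, hB⟩
    obtain ⟨i, hi⟩ := (h1 χ hχ).1 hQ
    exact ⟨⟨i, χ, hχ, hi, hB⟩, rfl⟩

theorem nl_congr (red : integralClosure ℤ ℂ →+* F) (B : (Γ → F) → F)
    {Q Q' : ∀ H : Subgroup Γ, (H → ℂ) → Prop}
    (h : ∀ χ : H → ℂ, IsIrrChar χ → (Q H χ ↔ Q' H χ)) : NL red B Q H = NL red B Q' H := by
  unfold NL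
  exact Nat.card_congr (Equiv.subtypeEquivRight fun χ => and_congr_right fun hχ =>
    and_congr_left fun _ => h χ hχ)

theorem ab_congr (red : integralClosure ℤ ℂ →+* F) (B : (Γ → F) → F)
    [Fintype {σ : Set (Subgroup Γ) // CH p ⊤ Z σ}] {Q Q' : ∀ H : Subgroup Γ, (H → ℂ) → Prop}
    (h : ∀ (σ : Set (Subgroup Γ)) (χ : chainStabilizer σ → ℂ), IsIrrChar χ → (Q _ χ ↔ Q' _ χ)) :
    AB p Z red B Q = AB p Z red B Q' := by
  unfold AB
  refine Finset.sum_congr rfl fun σ _ => ?_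
  rw [nl_congr red B (h σ.1)]

theorem ab_sum (red : integralClosure ℤ ℂ →+* F) (B : (Γ → F) → F)
    [Fintype {σ : Set (Subgroup Γ) // CH p ⊤ Z σ}]
    {Q : ∀ H : Subgroup Γ, (H → ℂ) → Prop} {I : Type} [Fintype I]
    {Qi : I → ∀ H : Subgroup Γ, (H → ℂ) → Prop}
    (h1 : ∀ (σ : Set (Subgroup Γ)) (χ : chainStabilizer σ → ℂ), IsIrrChar χ →
      (Q _ χ ↔ ∃ i, Qi i _ χ))
    (h2 : ∀ (σ : Set (Subgroup Γ)) (χ : chainStabilizer σ → ℂ), IsIrrChar χ →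
      ∀ i j, Qi i _ χ → Qi j _ χ → i = j) :
    AB p Z red B Q = ∑ i, AB p Z red B (Qi i) := by
  unfold AB
  rw [Finset.sum_comm]
  refine Finset.sum_congr rfl fun σ _ => ?_
  rw [nl_sum red B (h1 σ.1) (h2 σ.1), ← Finset.mul_sum, ← Finset.mul_sum, Nat.cast_sum]

/-- separation of the blocks by one class function -/
theorem sep_z [hp : Fact p.Prime] [IsAlgClosed F] [CharP F p] (red : integralClosure ℤ ℂ →+* F)
    {s : ℂ ≃+* ℂ}
    (hs : ∀ ζ : ℂ, ζ ^ Nat.card Γ = 1 → (∃ k : ℕ, ¬ p ∣ k ∧ ζ ^ k = 1) → s ζ = ζ)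
    {B : (Γ → F) → F} (hB : IsBlock B) [Fintype {σ : Set (Subgroup Γ) // CH p ⊤ Z σ}] :
    ∃ z : Γ → F, IsClassFun z ∧ (∀ x : Γ, z (x ^ ex (uσ Γ s)) = z x) ∧
      ∀ (σ : {σ : Set (Subgroup Γ) // CH p ⊤ Z σ}) (χ : chainStabilizer σ.1 → ℂ), IsIrrChar χ →
        (centralValue red χ (fun x => z x) = B z ↔
          ∀ f : Γ → F, IsClassFun f → centralValue red χ (fun x => f x) = B f) := by
  have hInf : Infinite F := inferInstance
  set V := GUσ Γ s with hV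
  have hred : ∀ (u : V.U) (ζ : ℂ), ζ ^ Nat.card Γ = 1 → redC red (V.s u ζ) = redC red ζ := by
    intro u ζ hζ
    refine red_fix (p := p) red (σ := V.s u) (n := Nat.card Γ) ?_ Nat.card_pos hζ
    rintro ζ hζ' ⟨k, hk, hζ⟩
    exact GUσ_fix s (hs ζ hζ' ⟨k, hk, hζ⟩) u
  have hfin : ∀ σ : {σ : Set (Subgroup Γ) // CH p ⊤ Z σ},
      Finite {χ : chainStabilizer σ.1 → ℂ // IsIrrChar χ} := fun σ => by
    have : Fintype (chainStabilizer σ.1) := Fintype.ofFinite _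
    exact (irr_finite (G := chainStabilizer σ.1)).to_subtype
  have hLb : ∀ (σ : {σ : Set (Subgroup Γ) // CH p ⊤ Z σ}) (χ : chainStabilizer σ.1 → ℂ),
      IsIrrChar χ → IsBlock (fun f : Γ → F => centralValue red χ (fun x => f x)) :=
    fun σ χ hχ => lin_block (p := p) red σ.2.chain σ.2.isp hχ
  obtain ⟨z, hz⟩ := Pool.Agent.Y286.NV.exists_sep
    (fun i : (Σ σ : {σ : Set (Subgroup Γ) // CH p ⊤ Z σ},
      {χ : chainStabilizer σ.1 → ℂ // IsIrrChar χ}) => blU V (hLb i.1 i.2.1 i.2.2)) (blU V hB)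
  have hz1 := z.2
  refine ⟨z.1, fun g x => hz1.1 g x, fun x => hz1.2 ⟨uσ Γ s, Subgroup.mem_zpowers _⟩ x,
    fun σ χ hχ => ?_⟩
  constructor
  · intro h
    have h6 := hz ⟨σ, χ, hχ⟩ h
    exact agree red V hred hχ (hLb σ χ hχ) hB
      (fun z' hz' => LinearMap.congr_fun h6 ⟨z', hz'⟩)
  · exact fun h => h z.1 hz1.1

/-- all characters -/
theorem ab_all [hp : Fact p.Prime] [IsAlgClosed F] [CharP F p] (red : integralClosure ℤ ℂ →+* F)
    (hZc : Z ≤ Subgroup.center Γ) (hZ : IsPGroup p Z) (hKZ : K ≤ Z)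
    {B : (Γ → F) → F} (hB : IsBlock B) [Fintype {σ : Set (Subgroup Γ) // CH p ⊤ Z σ}] :
    AB p Z red B (fun _ _ => True) = (Nat.card K : ℤ) * AB p Z red B (fun _ χ => KI K χ) := by
  have hKn : K.Normal := normal_cen (hKZ.trans hZc)
  obtain ⟨z, h1, _, h3⟩ := sep_z (p := p) (Z := Z) red (s := RingEquiv.refl ℂ)
    (fun _ _ _ => rfl) hB
  have h4 := all_main (K := K) red hZc hZ hKZ h1 (B z)
  have e1 : ∀ σ : {σ : Set (Subgroup Γ) // CH p ⊤ Z σ},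
      Nat.card {χ : chainStabilizer σ.1 → ℂ // IsIrrChar χ ∧
        centralValue red χ (fun x => z x) = B z} =
      NL red B (fun _ _ => True) (chainStabilizer σ.1) := by
    intro σ
    unfold NL
    refine Nat.card_congr (Equiv.subtypeEquivRight fun χ => ?_)
    refine and_congr_right fun hχ => ?_
    rw [h3 σ χ hχ, true_and]
  have e2 : ∀ σ : {σ : Set (Subgroup Γ) // CH p ⊤ Z σ},
      Nat.card {χ : chainStabilizer σ.1 → ℂ // IsIrrChar χ ∧ KI K χ ∧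
        centralValue red χ (fun x => z x) = B z} =
      NL red B (fun _ χ => KI K χ) (chainStabilizer σ.1) := by
    intro σ
    unfold NL
    refine Nat.card_congr (Equiv.subtypeEquivRight fun χ => ?_)
    refine and_congr_right fun hχ => ?_
    rw [h3 σ χ hχ]
  simp only [e1, e2] at h4
  exact h4

/-- the characters fixed by an automorphism -/
theorem ab_fix [hp : Fact p.Prime] [IsAlgClosed F] [CharP F p] (red : integralClosure ℤ ℂ →+* F)
    (hZc : Z ≤ Subgroup.center Γ) (hZ : IsPGroup p Z) (hKZ : K ≤ Z) [hKn : K.Normal]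
    {s : ℂ ≃+* ℂ}
    (hs : ∀ ζ : ℂ, ζ ^ Nat.card Γ = 1 →
      (∃ k : ℕ, ¬ p ∣ k ∧ ζ ^ (k * Monoid.exponent (Z.map (QuotientGroup.mk' K))) = 1) → s ζ = ζ)
    {B : (Γ → F) → F} (hB : IsBlock B) [Fintype {σ : Set (Subgroup Γ) // CH p ⊤ Z σ}] :
    AB p Z red B (fun _ χ => KI K χ) =
      AB p Z red B (fun _ χ => KI K χ ∧ ∀ x, s (χ x) = χ x) := by
  obtain ⟨z, h1, h2, h3⟩ := sep_z (p := p) (Z := Z) red (s := s)
    (fun ζ hζ ⟨k, hk, h⟩ => hs ζ hζ ⟨k, hk, by rw [pow_mul, h, one_pow]⟩) hB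
  have h4 := fix_main (K := K) red hZc hZ hKZ hs h1 h2 (B z)
  have e1 : ∀ σ : {σ : Set (Subgroup Γ) // CH p ⊤ Z σ},
      Nat.card {χ : chainStabilizer σ.1 → ℂ // IsIrrChar χ ∧ KI K χ ∧ (∀ x, s (χ x) = χ x) ∧
        centralValue red χ (fun x => z x) = B z} =
      NL red B (fun _ χ => KI K χ ∧ ∀ x, s (χ x) = χ x) (chainStabilizer σ.1) := by
    intro σ
    unfold NL
    refine Nat.card_congr (Equiv.subtypeEquivRight fun χ => ?_)
    refine and_congr_right fun hχ => ?_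
    rw [h3 σ χ hχ, and_assoc]
  have e2 : ∀ σ : {σ : Set (Subgroup Γ) // CH p ⊤ Z σ},
      Nat.card {χ : chainStabilizer σ.1 → ℂ // IsIrrChar χ ∧ KI K χ ∧
        centralValue red χ (fun x => z x) = B z} =
      NL red B (fun _ χ => KI K χ) (chainStabilizer σ.1) := by
    intro σ
    unfold NL
    refine Nat.card_congr (Equiv.subtypeEquivRight fun χ => ?_)
    refine and_congr_right fun hχ => ?_
    rw [h3 σ χ hχ]
  simp only [e1, e2] at h4
  exact h4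

/-- conjugate characters of the central subgroup -/
theorem nl_gal [hp : Fact p.Prime] [CharP F p] (red : integralClosure ℤ ℂ →+* F)
    (hZ : IsPGroup p Z) (B : (Γ → F) → F) (s : ℂ ≃+* ℂ) (P : Prop)
    {w u : Z →* ℂˣ} (h : Subgroup.zpowers u = Subgroup.zpowers w) :
    NL red B (fun _ χ => LO w χ ∧ (P → ∀ x, s (χ x) = χ x)) H ≤
      NL red B (fun _ χ => LO u χ ∧ (P → ∀ x, s (χ x) = χ x)) H := by
  have : Fintype H := Fintype.ofFinite H
  obtain ⟨t, ht1, ht2⟩ := exists_gal (Γ := Γ) hZ h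
  unfold NL
  have hfin := fin_irr H (fun χ => (LO u χ ∧ (P → ∀ x, s (χ x) = χ x)) ∧
    ∀ f : Γ → F, IsClassFun f → centralValue red χ (fun x => f x) = B f)
  refine Nat.card_le_card_of_injective
    (fun χ : {χ : H → ℂ // IsIrrChar χ ∧ (LO w χ ∧ (P → ∀ x, s (χ x) = χ x)) ∧
      ∀ f : Γ → F, IsClassFun f → centralValue red χ (fun x => f x) = B f} =>
      (⟨fun x => t (χ.1 x), irr_gal t χ.2.1, ⟨?_, ?_⟩, ?_⟩ :
        {χ : H → ℂ // IsIrrChar χ ∧ (LO u χ ∧ (P → ∀ x, s (χ x) = χ x)) ∧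
      ∀ f : Γ → F, IsClassFun f → centralValue red χ (fun x => f x) = B f})) ?_
  · intro k x y hxy
    change t (χ.1 y) = _ * t (χ.1 x)
    rw [χ.2.2.1.1 k x y hxy, map_mul, ht2]
  · intro hP x
    have h5 : ∀ (ψ : H → ℂ), IsIrrChar ψ → ψ (x ^ ex (uσ Γ s)) = s (ψ x) := fun ψ hψ =>
      char_pow_gal s Nat.card_pos (fun ζ hζ => uσ_spec s ζ hζ) hψ (hxn _ x)
    have h6 := h5 _ (irr_gal t χ.2.1)
    have h7 := h5 _ χ.2.1
    change s (t (χ.1 x)) = t (χ.1 x)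
    change t (χ.1 (x ^ ex (uσ Γ s))) = s (t (χ.1 x)) at h6
    rw [← h6, h7, χ.2.2.1.2 hP]
  · intro f hf
    rw [← χ.2.2.2 f hf]
    refine cv_gal red (n := Nat.card Γ) Nat.card_pos (fun x => hxn _ x) t (fun ζ hζ => ?_) χ.2.1 _
    exact red_fix (p := p) red (σ := t) (n := Nat.card Γ) ht1 Nat.card_pos hζ
  · intro χ ψ hχψ
    apply Subtype.ext
    funext x
    exact t.injective (congrFun (congrArg Subtype.val hχψ) x)

theorem ab_gal [hp : Fact p.Prime] [CharP F p] (red : integralClosure ℤ ℂ →+* F)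
    (hZ : IsPGroup p Z) (B : (Γ → F) → F) (s : ℂ ≃+* ℂ) (P : Prop)
    [Fintype {σ : Set (Subgroup Γ) // CH p ⊤ Z σ}]
    {w u : Z →* ℂˣ} (h : Subgroup.zpowers u = Subgroup.zpowers w) :
    AB p Z red B (fun _ χ => LO w χ ∧ (P → ∀ x, s (χ x) = χ x)) =
      AB p Z red B (fun _ χ => LO u χ ∧ (P → ∀ x, s (χ x) = χ x)) := by
  unfold AB
  refine Finset.sum_congr rfl fun σ _ => ?_
  rw [le_antisymm (nl_gal red hZ B s P h) (nl_gal red hZ B s P h.symm)]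

/-- the decomposition of the sum over the characters with given kernel -/
theorem ab_dec (red : integralClosure ℤ ℂ →+* F) (hZc : Z ≤ Subgroup.center Γ)
    (B : (Γ → F) → F) (s : ℂ ≃+* ℂ) (P : Prop)
    [Fintype {σ : Set (Subgroup Γ) // CH p ⊤ Z σ}] (ν : Z →* ℂˣ)
    [Fintype (Subgroup.zpowers ν)] :
    AB p Z red B (fun _ χ => KI (kr ν) χ ∧ (P → ∀ x, s (χ x) = χ x)) =
      ∑ ν' : Subgroup.zpowers ν, AB p Z red B (fun _ χ => LO (ν' : Z →* ℂˣ) χ ∧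
        (P → ∀ x, s (χ x) = χ x)) := by
  refine ab_sum (Qi := fun ν' : Subgroup.zpowers ν => fun _ χ => LO (ν' : Z →* ℂˣ) χ ∧
        (P → ∀ x, s (χ x) = χ x)) red B ?_ ?_
  · intro σ χ hχ
    change KI (kr ν) χ ∧ _ ↔ ∃ ν' : Subgroup.zpowers ν, LO (ν' : Z →* ℂˣ) χ ∧ _
    rw [ki_iff hZc (center_le_stab hZc σ) hχ ν]
    exact ⟨fun ⟨⟨ν', h⟩, h'⟩ => ⟨ν', h, h'⟩, fun ⟨ν', h, h'⟩ => ⟨⟨ν', h⟩, h'⟩⟩
  · intro σ χ hχ i j hi hj
    exact Subtype.ext (lo_unique (center_le_stab hZc σ) hχ hi.1 hj.1)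

/-- **the sums for the characters of the central subgroup** -/
theorem ab_lam [hp : Fact p.Prime] [IsAlgClosed F] [CharP F p] (red : integralClosure ℤ ℂ →+* F)
    (hZc : Z ≤ Subgroup.center Γ) (hZ : IsPGroup p Z)
    {B : (Γ → F) → F} (hB : IsBlock B) [Fintype {σ : Set (Subgroup Γ) // CH p ⊤ Z σ}]
    (ν : Z →* ℂˣ) :
    (Nat.card Z : ℤ) * AB p Z red B (fun _ χ => LO ν χ) = AB p Z red B (fun _ _ => True) := by
  set a : (Z →* ℂˣ) → ℤ := fun ν => AB p Z red B (fun _ χ => LO ν χ ∧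
    (False → ∀ x, RingEquiv.refl ℂ (χ x) = χ x)) with ha
  have ha' : ∀ ν : Z →* ℂˣ, AB p Z red B (fun _ χ => LO ν χ) = a ν := fun ν =>
    ab_congr red B fun σ χ _ => ⟨fun h => ⟨h, False.elim⟩, fun h => h.1⟩
  have hk : ∀ ν : Z →* ℂˣ, AB p Z red B (fun _ χ => KI (kr ν) χ) =
      AB p Z red B (fun _ χ => KI (kr ν) χ ∧ (False → ∀ x, RingEquiv.refl ℂ (χ x) = χ x)) :=
    fun ν => ab_congr red B fun σ χ _ => ⟨fun h => ⟨h, False.elim⟩, fun h => h.1⟩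
  have h1 : ∀ ν : Z →* ℂˣ, ∀ [Fintype (Subgroup.zpowers ν)],
      AB p Z red B (fun _ _ => True) = (Nat.card ν.ker : ℤ) *
        ∑ ν' : Subgroup.zpowers ν, a ν' := by
    intro ν _
    rw [ab_all red hZc hZ (kr_le ν) hB, kr_card, hk, ab_dec red hZc B (RingEquiv.refl ℂ) False ν]
  have hD := cyc_zero1 (U := Z →* ℂˣ)
    (fun ν => (Nat.card Z : ℤ) * a ν - AB p Z red B (fun _ _ => True)) ?_ ν
    (isOfFinOrder_iff_pow_eq_one.2 ⟨_, Nat.card_pos, fin_order ν⟩) ?_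
  · rw [ha']
    exact sub_eq_zero.1 hD
  · intro u w huw
    have h2 : a w = a u := ab_gal red hZ B (RingEquiv.refl ℂ) False huw
    rw [h2]
  · intro u _ _
    rw [Finset.sum_sub_distrib, ← Finset.mul_sum, Finset.sum_const, Finset.card_univ,
      nsmul_eq_mul, ← Nat.card_eq_fintype_card, ← card_zp u]
    have h2 := h1 u
    have h3 : (((Nat.card u.ker * Nat.card (Subgroup.zpowers u) : ℕ) : ℤ)) *
        ∑ ν' : Subgroup.zpowers u, a ν' =
        (Nat.card (Subgroup.zpowers u) : ℤ) * AB p Z red B (fun _ _ => True) := by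
      rw [h2]
      push_cast
      ring
    rw [h3, sub_self]

/-- **the fixed characters over a character of the central subgroup** -/
theorem ab_lam_fix [hp : Fact p.Prime] [IsAlgClosed F] [CharP F p]
    (red : integralClosure ℤ ℂ →+* F)
    (hZc : Z ≤ Subgroup.center Γ) (hZ : IsPGroup p Z) (μ : Z →* ℂˣ) {n : ℕ}
    (hμ : ∀ z, μ z ^ n = 1) {s : ℂ ≃+* ℂ}
    (hs : ∀ ζ : ℂ, ζ ^ Nat.card Γ = 1 → (∃ k : ℕ, ¬ p ∣ k ∧ ζ ^ (k * n) = 1) → s ζ = ζ)
    {B : (Γ → F) → F} (hB : IsBlock B) [Fintype {σ : Set (Subgroup Γ) // CH p ⊤ Z σ}] :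
    AB p Z red B (fun _ χ => LO μ χ) =
      AB p Z red B (fun _ χ => LO μ χ ∧ ∀ x, s (χ x) = χ x) := by
  set a : Prop → (Z →* ℂˣ) → ℤ := fun P ν => AB p Z red B (fun _ χ => LO ν χ ∧
    (P → ∀ x, s (χ x) = χ x)) with ha
  have ha1 : AB p Z red B (fun _ χ => LO μ χ) = a False μ :=
    ab_congr red B fun σ χ _ => ⟨fun h => ⟨h, False.elim⟩, fun h => h.1⟩
  have ha2 : AB p Z red B (fun _ χ => LO μ χ ∧ ∀ x, s (χ x) = χ x) = a True μ :=
    ab_congr red B fun σ χ _ => ⟨fun h => ⟨h.1, fun _ => h.2⟩, fun h => ⟨h.1, h.2 trivial⟩⟩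
  rw [ha1, ha2, ← sub_eq_zero]
  refine cyc_zero1 (U := Z →* ℂˣ) (fun ν => a False ν - a True ν) ?_ μ
    (isOfFinOrder_iff_pow_eq_one.2 ⟨_, Nat.card_pos, fin_order μ⟩) ?_
  · intro u w huw
    have h2 : a False w = a False u := ab_gal red hZ B s False huw
    have h3 : a True w = a True u := ab_gal red hZ B s True huw
    rw [h2, h3]
  · intro u hu _
    rw [Finset.sum_sub_distrib, ← ab_dec red hZc B s False u, ← ab_dec red hZc B s True u,
      sub_eq_zero]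
    have hKn : (kr u).Normal := normal_cen ((kr_le u).trans hZc)
    have hdvd : Monoid.exponent (Z.map (QuotientGroup.mk' (kr u))) ∣ n := by
      rw [Monoid.exponent_dvd_iff_forall_pow_eq_one]
      rintro ⟨_, z, hz, rfl⟩
      apply Subtype.ext
      change ((z : Γ) : Γ ⧸ kr u) ^ n = 1
      rw [← QuotientGroup.mk_pow, QuotientGroup.eq_one_iff]
      refine ⟨⟨z, hz⟩ ^ n, ?_, rfl⟩
      obtain ⟨i, rfl⟩ := hu
      change (μ ^ i) _ = 1
      rw [zpA, map_pow, hμ, one_zpow]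
    have h4 := ab_fix (K := kr u) red hZc hZ (kr_le u) (s := s) (fun ζ hζ ⟨k, hk, h⟩ =>
      hs ζ hζ ⟨k, hk, by
        obtain ⟨d, hd⟩ := Nat.mul_dvd_mul_left k hdvd
        rw [hd, pow_mul, h, one_pow]⟩) hB
    refine Eq.trans ?_ (h4.trans ?_)
    · exact ab_congr red B fun σ χ _ => ⟨fun h => h.1, fun h => ⟨h, False.elim⟩⟩
    · exact ab_congr red B fun σ χ _ => ⟨fun h => ⟨h.1, fun _ => h.2⟩, fun h => ⟨h.1, h.2 trivial⟩⟩

end

end Pool.Agent.Q18.PR
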