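import Pool.Agent.Q18.PR.Gq
import Pool.Agent.Q177.PR.Chq

/-!
# Alternating sums and quotients by central `p`-subgroups
-/

open scoped BigOperators Classical

set_option linter.unusedSectionVars false

noncomputable section

namespace Pool.Agent.Q18.PR

open Pool.Agent.Q18.K
open Pool.Agent.Helper884.IC (IsIrrChar irr_finite)
open Pool.Agent.Y63.NV (Kop Kfun SA cut VS gk push IsClassFun Knum centralValue)
open Pool.Agent.Y63.KR

section

variable {Γ : Type} [Group Γ] [Finite Γ] {p : ℕ} {Z K : Subgroup Γ}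

theorem sa_empty [hp : Fact p.Prime] (hZc : Z ≤ Subgroup.center Γ) (hZ : IsPGroup p Z)
    {J R : Subgroup Γ} (hZJ : Z ≤ J) (hR : R < Z) : SA p J R = ∅ := by
  rw [Set.eq_empty_iff_forall_notMem]
  rintro x ⟨_, _, h3⟩
  have hle : Z ≤ J ⊓ Subgroup.centralizer {x} := by
    intro k hk
    refine ⟨hZJ hk, ?_⟩
    change k ∈ Subgroup.centralizer {x}
    rw [Subgroup.mem_centralizer_singleton_iff]
    exact (Subgroup.mem_center_iff.1 (hZc hk) x).symm
  have h4 := Subgroup.card_dvd_of_le hle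
  have h5 := (Nat.factorization_le_iff_dvd Nat.card_pos.ne' Nat.card_pos.ne').2 h4 p
  rw [h3] at h5
  obtain ⟨a, ha⟩ := IsPGroup.iff_card.1 hZ
  obtain ⟨b, hb⟩ := IsPGroup.iff_card.1 (hZ.to_le hR.le)
  have hpp : p.Prime := Fact.out
  rw [ha, hb, hpp.factorization_pow, hpp.factorization_pow, Finsupp.single_eq_same,
    Finsupp.single_eq_same] at h5
  have h6 : Nat.card Z ≤ Nat.card R := by
    rw [ha, hb]
    exact Nat.pow_le_pow_right hpp.pos h5
  exact hR.ne (Subgroup.eq_of_le_of_card_ge hR.le h6)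

theorem center_le_stab (hZc : Z ≤ Subgroup.center Γ) (σ : Set (Subgroup Γ)) :
    Z ≤ chainStabilizer σ := by
  intro z hz
  rw [mem_chainStabilizer]
  intro P _
  rw [conjSub_eq_iff, Subgroup.mem_normalizer_iff]
  intro h
  rw [← Subgroup.mem_center_iff.1 (hZc hz) h, mul_inv_cancel_right]

variable {F : Type} [Field F]

theorem gE_empty (z : Γ → F) (J : Subgroup Γ) (c : F) : gk z (∅ : Set Γ) J c = 0 := by
  unfold gk
  have h1 : VS (F := F) (∅ : Set Γ) J ⊓ (Kop z ∅).maxGenEigenspace c = ⊥ := by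
    rw [eq_bot_iff]
    intro v hv
    have h2 := (Submodule.mem_inf.1 hv).1.1
    rw [Submodule.mem_bot]
    funext x
    exact h2 x (Set.notMem_empty x)
  rw [h1, finrank_bot]

/-- the alternating sum as a sum of multiplicities of eigenvalues -/
theorem cen_main [Fact p.Prime] [IsAlgClosed F] [CharP F p] (red : integralClosure ℤ ℂ →+* F)
    (hZc : Z ≤ Subgroup.center Γ) (hZ : IsPGroup p Z) {z : Γ → F} (hz : IsClassFun z) (c : F)
    [Fintype {σ : Set (Subgroup Γ) // CH p ⊤ Z σ}] :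
    ∑ σ : {σ : Set (Subgroup Γ) // CH p ⊤ Z σ}, (-1) ^ σ.1.ncard *
      ((Nat.card (chainStabilizer σ.1) : ℤ) *
        (Knum red (fun x : chainStabilizer σ.1 => z x) c : ℤ)) =
    ∑ σ : {σ : Set (Subgroup Γ) // CH p ⊤ Z σ}, (-1) ^ σ.1.ncard *
      ((Nat.card (chainStabilizer σ.1) : ℤ) *
        (gk (cut z (chainStabilizer σ.1)) (SA p (chainStabilizer σ.1) Z)
          (chainStabilizer σ.1) c : ℤ)) := by
  have : Fintype (Subgroup Γ) := Fintype.ofFinite _
  have hZn : Subgroup.normalizer (Z : Set Γ) = ⊤ := by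
    rw [Subgroup.normalizer_eq_top_iff]
    exact normal_cen hZc
  have hcent : Subgroup.centralizer (Z : Set Γ) = ⊤ := by
    rw [eq_top_iff]
    intro x _
    rw [Subgroup.mem_centralizer_iff]
    intro r hr
    exact (Subgroup.mem_center_iff.1 (hZc hr) x).symm
  have hMC : ∀ σ : Set (Subgroup Γ), MC (PAI Γ) ⊤ σ = chainStabilizer σ := by
    intro σ
    unfold MC
    rw [top_inf_eq]
    rfl
  have h1 := alt_main (p := p) (A := PAI Γ) (M := ⊤) (G := ⊤) (Z := Z) (adm_I ⊤) hZ le_top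
    (by rw [hZn]) (fun m _ => by rw [hZn]; exact Subgroup.mem_top _) (z := z)
    (fun m _ x => hz m x) c
  have h2 : ∀ σ : {σ : Set (Subgroup Γ) // CH p ⊤ Z σ},
      (Knum red (fun x : chainStabilizer σ.1 => z x) c : ℤ) =
      gE (PAI Γ) (cut z (NS ⊤ σ.1)) (NS ⊤ σ.1 : Set Γ) (MC (PAI Γ) ⊤ σ.1) c := by
    intro σ
    rw [hMC, NS_top, gE_I]
    have h3 := s_kdimh p F red Γ (chainStabilizer σ.1) (cut z (chainStabilizer σ.1)) c ?_ ?_
    · rw [← h3]
      congr 2
      funext x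
      unfold cut
      rw [if_pos x.2]
    · intro h hh x
      unfold cut
      have h4 : h * x * h⁻¹ ∈ chainStabilizer σ.1 ↔ x ∈ chainStabilizer σ.1 := by
        rw [Subgroup.mul_mem_cancel_right _ (Subgroup.inv_mem _ hh),
          Subgroup.mul_mem_cancel_left _ hh]
      simp only [h4, hz h x]
    · intro x hx
      unfold cut
      rw [if_neg hx]
  rw [Finset.sum_congr rfl fun σ _ => congrArg (fun t : ℤ => (-1) ^ σ.1.ncard *
    ((Nat.card (chainStabilizer σ.1) : ℤ) * t)) (h2 σ)]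
  have h5 : ∀ σ : {σ : Set (Subgroup Γ) // CH p ⊤ Z σ},
      (Nat.card (chainStabilizer σ.1) : ℤ) = Nat.card (MC (PAI Γ) ⊤ σ.1) := fun σ => by
    rw [hMC]
  rw [Finset.sum_congr rfl fun σ _ => congrArg (fun t : ℤ => (-1) ^ σ.1.ncard *
    (t * gE (PAI Γ) (cut z (NS ⊤ σ.1)) (NS ⊤ σ.1 : Set Γ) (MC (PAI Γ) ⊤ σ.1) c)) (h5 σ), h1,
    Finset.sum_eq_single Z]
  · rw [if_pos le_rfl]
    refine Finset.sum_congr rfl fun σ _ => ?_
    congr 1
    have hZs := center_le_stab hZc σ.1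
    rw [if_pos ⟨hZ, by rw [NS_top]; exact hZs⟩]
    unfold wE
    rw [gE_I]
    have e1 : NS (⊤ : Subgroup Γ) σ.1 ⊓ Subgroup.normalizer (Z : Set Γ) = chainStabilizer σ.1 := by
      rw [hZn, inf_top_eq, NS_top]
    have e2 : MS (PAI Γ) (MC (PAI Γ) ⊤ σ.1) Z = chainStabilizer σ.1 := by
      unfold MS
      rw [hZn, hMC, Subgroup.comap_top, inf_top_eq]
    rw [e1, e2, hcent]
    have e3 : cut (cut z (chainStabilizer σ.1)) (⊤ : Subgroup Γ) = cut z (chainStabilizer σ.1) := by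
      funext x
      unfold cut
      rw [if_pos (Subgroup.mem_top x)]
    rw [e3]
  · intro R _ hR
    by_cases hRZ : R ≤ Z
    · rw [if_pos hRZ]
      refine Finset.sum_eq_zero fun σ _ => ?_
      by_cases h6 : IsPGroup p R ∧ R ≤ NS ⊤ σ.1
      · rw [if_pos h6]
        unfold wE
        rw [gE_I, sa_empty hZc hZ (J := NS ⊤ σ.1 ⊓ Subgroup.normalizer (R : Set Γ)) ?_
          (lt_of_le_of_ne hRZ hR), gE_empty]
        · simp
        · rw [NS_top]
          refine le_inf (center_le_stab hZc σ.1) ?_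
          intro z hz
          rw [Subgroup.mem_normalizer_iff]
          intro h
          rw [← Subgroup.mem_center_iff.1 (hZc hz) h, mul_inv_cancel_right]
      · rw [if_neg h6, mul_zero]
    · rw [if_neg hRZ]
  · intro h
    exact absurd (Finset.mem_univ Z) h

/-- **alternating sums and quotients** -/
theorem quot_main [Fact p.Prime] [IsAlgClosed F] [CharP F p] [hKn : K.Normal]
    (red : integralClosure ℤ ℂ →+* F)
    (hZc : Z ≤ Subgroup.center Γ) (hZ : IsPGroup p Z) (hKZ : K ≤ Z) {z : Γ → F}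
    (hz : IsClassFun z) (c : F)
    [Fintype {σ : Set (Subgroup Γ) // CH p ⊤ Z σ}]
    [Fintype {τ : Set (Subgroup (Γ ⧸ K)) // CH p ⊤ (Z.map (QuotientGroup.mk' K)) τ}] :
    ∑ σ : {σ : Set (Subgroup Γ) // CH p ⊤ Z σ}, (-1) ^ σ.1.ncard *
      ((Nat.card (chainStabilizer σ.1) : ℤ) *
        (Knum red (fun x : chainStabilizer σ.1 => z x) c : ℤ)) =
    (Nat.card K : ℤ) * (Nat.card K * ∑ τ : {τ : Set (Subgroup (Γ ⧸ K)) //
        CH p ⊤ (Z.map (QuotientGroup.mk' K)) τ}, (-1) ^ τ.1.ncard *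
      ((Nat.card (chainStabilizer τ.1) : ℤ) *
        (Knum red (fun x : chainStabilizer τ.1 => push K z x) c : ℤ))) := by
  have hZc' : Z.map (QuotientGroup.mk' K) ≤ Subgroup.center (Γ ⧸ K) := by
    rintro _ ⟨z, hz, rfl⟩
    rw [Subgroup.mem_center_iff]
    intro g
    obtain ⟨g, rfl⟩ := QuotientGroup.mk_surjective g
    have h1 := Subgroup.mem_center_iff.1 (hZc hz) g
    change ((g : Γ) : Γ ⧸ K) * (z : Γ ⧸ K) = z * g
    rw [← QuotientGroup.mk_mul, ← QuotientGroup.mk_mul, h1]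
  obtain ⟨e, he⟩ := Pool.Agent.Q177.PR.chq p Γ Z K (normal_cen hZc) hZ hKZ
  have hpz : IsClassFun (push K z) := by
    intro g x
    obtain ⟨g', rfl⟩ := QuotientGroup.mk_surjective g
    exact push_conj (H := ⊤) (K := K) (z := z) (fun h _ x => hz h x) (g' : Γ ⧸ K)
      ⟨g', Subgroup.mem_top _, rfl⟩ x
  rw [cen_main red hZc hZ hz c, cen_main red hZc' (hZ.map _) hpz c, ← Equiv.sum_comp e,
    Finset.mul_sum, Finset.mul_sum]
  refine Finset.sum_congr rfl fun σ _ => ?_
  obtain ⟨h1, h2, h3⟩ := he σ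
  rw [h1, h2, gk_quot (K := K) hZc hZ hKZ (center_le_stab hZc σ.1), push_cut h3,
    ← card_map_mk (K := K) h3]
  · push_cast
    ring
  · intro h hh x
    unfold cut
    have h4 : h * x * h⁻¹ ∈ chainStabilizer σ.1 ↔ x ∈ chainStabilizer σ.1 := by
      rw [Subgroup.mul_mem_cancel_right _ (Subgroup.inv_mem _ hh),
        Subgroup.mul_mem_cancel_left _ hh]
    simp only [h4, hz h x]
  · intro x hx
    unfold cut
    rw [if_neg hx]

end

end Pool.Agent.Q18.PR
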