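import Mathlib

/-!
# Eigenspaces of an operator commuting with a `p`-group: statement
-/

noncomputable section

namespace Pool.Agent.Q18.PR

/-- JOB EIG: let the finite `p`-group `C` act linearly on the finite-dimensional space `W` over the
algebraically closed field `F` of characteristic `p`, let `V` be an invariant subspace of dimension
`|C| dim V^C` and `T` an operator on `W` which preserves `V` and commutes with `C` on `V`. Then
the generalised eigenspaces of `T` on `V` have the same property. -/
def S_EIG : Prop := ∀ (p : ℕ) [Fact p.Prime] (F : Type) [Field F] [IsAlgClosed F] [CharP F p]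
  (W : Type) [AddCommGroup W] [Module F W] [FiniteDimensional F W] (C : Type) [Group C] [Finite C]
  (ρ : Representation F C W) (V : Submodule F W) (T : Module.End F W), IsPGroup p C →
  (∀ v ∈ V, T v ∈ V) → (∀ g : C, ∀ v ∈ V, ρ g v ∈ V) → (∀ g : C, ∀ v ∈ V, ρ g (T v) = T (ρ g v)) →
  Module.finrank F V = Nat.card C * Module.finrank F ↥(V ⊓ ρ.invariants) → ∀ c : F,
  Module.finrank F ↥(V ⊓ T.maxGenEigenspace c) =
    Nat.card C * Module.finrank F ↥(V ⊓ ρ.invariants ⊓ T.maxGenEigenspace c)

end Pool.Agent.Q18.PR
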