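import Pool.Agent.Q18.K.Chain

/-!
# Chains of `p`-subgroups and quotients: statement
-/

open Pool.Agent.Q18.K (CH)
open Pool.Agent.Y63.KR (chainStabilizer)

noncomputable section

namespace Pool.Agent.Q18.PR

/-- JOB CHQ: for `K ≤ Z` normal subgroups of `Γ`, `Z` a `p`-group, the chains of `p`-subgroups of `Γ`
starting at `Z` correspond to those of `Γ/K` starting at `Z/K`, with the same lengths and
corresponding stabilisers. -/
def S_CHQ : Prop := ∀ (p : ℕ) [Fact p.Prime] (Γ : Type) [Group Γ] [Finite Γ] (Z K : Subgroup Γ)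
  [K.Normal], Z.Normal → IsPGroup p Z → K ≤ Z →
  ∃ e : {σ : Set (Subgroup Γ) // CH p ⊤ Z σ} ≃
      {τ : Set (Subgroup (Γ ⧸ K)) // CH p ⊤ (Z.map (QuotientGroup.mk' K)) τ},
    ∀ σ, (e σ).1.ncard = σ.1.ncard ∧
      chainStabilizer (e σ).1 = (chainStabilizer σ.1).map (QuotientGroup.mk' K) ∧
      K ≤ chainStabilizer σ.1

end Pool.Agent.Q18.PR
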